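import Pool.Agent.U161.AR.Main

/-!
# Eigenvalues of the quotient by the third derived subgroup
-/

set_option autoImplicit false

namespace Pool.Agent.U161.AM

open Pool.Agent.N600.G3 Subgroup Polynomial
open scoped TensorProduct commutatorElement Pointwise NNReal
open Pool.Agent.TH53.UG (act act_of aeval_comm main_track integral_of_root eig_of_root)
open Pool.Agent.U161.AR
open Pool.Agent.H785R3.GrowthA (gam gam_map)

universe u

/-- `z` is an eigenvalue of the conjugation by `t` on the abelianization of `N` -/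
def Eig {H : Type u} [Group H] (N : Subgroup H) [N.Normal] (t : H) (z : ℂ) : Prop :=
  Module.End.HasEigenvalue (LinearMap.baseChange ℂ (act N t) :
    Module.End ℂ (ℂ ⊗[ℤ] Additive (Abelianization N))) z

/-- eigenvalues of automorphisms are not zero -/
lemma eig_ne_zero {H : Type u} [Group H] (N : Subgroup H) [N.Normal] (t : H) {z : ℂ}
    (h : Eig N t z) : z ≠ 0 := by
  rintro rfl
  obtain ⟨v, hv⟩ := h.exists_hasEigenvector
  apply hv.2
  have h1 := hv.apply_eq_smul
  rw [zero_smul] at h1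
  have h2 : (LinearMap.baseChange ℂ (act N t⁻¹) : Module.End ℂ (ℂ ⊗[ℤ] Additive (Abelianization N)))
      ((LinearMap.baseChange ℂ (act N t) :
        Module.End ℂ (ℂ ⊗[ℤ] Additive (Abelianization N))) v) = v := by
    rw [← LinearMap.comp_apply, ← LinearMap.baseChange_comp]
    have h3 : (act N t⁻¹ : AbN N →ₗ[ℤ] AbN N) ∘ₗ (act N t) = LinearMap.id := by
      apply LinearMap.ext
      intro a
      rw [LinearMap.comp_apply, ← act_mul, inv_mul_cancel, act_one, LinearMap.id_apply]
    rw [h3, LinearMap.baseChange_id, LinearMap.id_apply]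
  rw [h1, map_zero] at h2
  exact h2.symm

lemma fin_ab {H : Type u} [Group H] (N D : Subgroup H) [N.Normal] [D.Normal] (hD : D ≤ ⁅N, N⁆)
    (h : ∀ K : Subgroup (H ⧸ D), K.FG) : Module.Finite ℤ (AbN N) := by
  have h2 : (N.map (QuotientGroup.mk' D)).FG := h _
  rw [Module.Finite.iff_addGroup_fg]
  have h3 : Group.FG (N.map (QuotientGroup.mk' D)) := (Group.fg_iff_subgroup_fg _).2 h2
  let f : N →* N.map (QuotientGroup.mk' D) :=
    ((QuotientGroup.mk' D).comp N.subtype).codRestrict _ (fun a => mem_map_of_mem _ a.2)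
  have hf : Function.Surjective f := by
    rintro ⟨_, x, hx, rfl⟩
    exact ⟨⟨x, hx⟩, rfl⟩
  have hker : f.ker ≤ (Abelianization.of : N →* Abelianization N).ker := by
    intro x hx
    have h4 : (QuotientGroup.mk' D) (x : H) = 1 := congrArg (fun y : N.map _ => (y : H ⧸ D)) hx
    have h5 : (x : H) ∈ ⁅N, N⁆ := hD ((QuotientGroup.eq_one_iff _).1 h4)
    rw [← Subgroup.map_subtype_commutator] at h5
    obtain ⟨y, hy, hye⟩ := h5
    have h6 : y = x := Subtype.ext hye
    rw [MonoidHom.mem_ker]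
    subst h6
    exact (QuotientGroup.eq_one_iff _).2 hy
  let g : (N.map (QuotientGroup.mk' D)) →* Abelianization N :=
    f.liftOfSurjective hf ⟨Abelianization.of, hker⟩
  have hg : Function.Surjective g := by
    intro y
    obtain ⟨x, hx⟩ := QuotientGroup.mk_surjective y
    refine ⟨f x, ?_⟩
    have : g (f x) = Abelianization.of x := MonoidHom.liftOfRightInverse_comp_apply _ _ _ _ _
    rw [this]
    exact hx
  have h7 : Group.FG (Abelianization N) := Group.fg_of_surjective hg
  infer_instance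

theorem second {H : Type u} [Group H] (D : Subgroup H) [D.Normal] (hD : D ≤ ⁅gam H 1, gam H 1⁆)
    {T : Set H} (hfin : T.Finite) (hgen : closure T = ⊤) (h : ∀ K : Subgroup (H ⧸ D), K.FG) :
    (∀ n, 2 ^ n ≤ Nat.card ↥(T ^ n) ^ (2 ^ (1 + 1))) ∨
    (∃ (t : H) (x : ℂ), x ≠ 0 ∧ (∀ n > 0, x ^ n ≠ 1) ∧ IsIntegral ℤ x ∧ Eig (gam H 1) t x ∧
      ∀ n, Nat.card (H746UG.DS x n) ≤ Nat.card ↥(T ^ n) ^ (2 ^ (1 + 1))) ∨
    (Group.IsNilpotent (gam (H ⧸ D) 1) → Group.IsVirtuallyNilpotent (H ⧸ D)) := by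
  have hsurj : Function.Surjective (QuotientGroup.mk' D) := QuotientGroup.mk'_surjective D
  have hfin' : ((QuotientGroup.mk' D) '' T).Finite := hfin.image _
  have hgen' : closure ((QuotientGroup.mk' D) '' T) = ⊤ := by
    rw [← MonoidHom.map_closure, hgen, ← MonoidHom.range_eq_map]
    exact MonoidHom.range_eq_top.2 hsurj
  have hcard : ∀ n, Nat.card ↥(((QuotientGroup.mk' D) '' T) ^ n) ≤ Nat.card ↥(T ^ n) := by
    intro n
    have : Finite ↥(T ^ n) := H746UG.finite_pow T hfin n
    rw [← Set.image_pow]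
    exact Nat.card_image_le this
  rcases main_track hfin' hgen' (k := 1) le_rfl with h1 | ⟨-, t', b, x, hx0, hx, hp, hn⟩ | ⟨-, h1⟩
  · left
    exact fun n => (h1 n).trans (Nat.pow_le_pow_left (hcard n) _)
  · right; left
    have hg : gam (H ⧸ D) 1 = (gam H 1).map (QuotientGroup.mk' D) := gam_map hsurj 1
    have hfin1 : Module.Finite ℤ (AbN (gam H 1)) := fin_ab (gam H 1) D hD h
    let ψ0 : gam H 1 →* gam (H ⧸ D) 1 :=
      ((QuotientGroup.mk' D).comp (gam H 1).subtype).codRestrict (gam (H ⧸ D) 1) (fun a => by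
        rw [hg]; exact mem_map_of_mem _ a.2)
    let φ : AbN (gam H 1) →ₗ[ℤ] AbN (gam (H ⧸ D) 1) :=
      (MonoidHom.toAdditive (Abelianization.map ψ0)).toIntLinearMap
    have hφ : ∀ a : gam H 1, φ (cls (gam H 1) a) = cls (gam (H ⧸ D) 1) (ψ0 a) := fun a => rfl
    obtain ⟨t, rfl⟩ := hsurj t'
    have hc : ∀ m, φ (act (gam H 1) t m) =
        act (gam (H ⧸ D) 1) (QuotientGroup.mk' D t) (φ m) := by
      intro m
      obtain ⟨a, rfl⟩ := cls_surj (gam H 1) m
      rw [act_cls, hφ, hφ, act_cls]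
      congr 1
    obtain ⟨b', hb'⟩ : ∃ b', φ b' = b := by
      obtain ⟨y, rfl⟩ := cls_surj (gam (H ⧸ D) 1) b
      obtain ⟨y, hy⟩ := y
      have hy' := hy
      rw [hg] at hy'
      obtain ⟨x0, hx0', hxy⟩ := hy'
      refine ⟨cls (gam H 1) ⟨x0, hx0'⟩, ?_⟩
      rw [hφ]
      congr 1
      exact Subtype.ext hxy
    have hp' : ∀ p : ℤ[X], (aeval (act (gam H 1) t) p) b' = 0 → aeval x p = 0 := by
      intro p h0
      apply hp
      have h2 := aeval_comm φ hc p b'
      rw [h0, map_zero, hb'] at h2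
      exact h2.symm
    exact ⟨t, x, hx0, hx, integral_of_root _ b' hp',
      eig_of_root (act (gam H 1) t) b' hp' (minpoly.aeval ℤ x),
      fun n => (hn n).trans (Nat.pow_le_pow_left (hcard n) _)⟩
  · exact Or.inr (Or.inr h1)

end Pool.Agent.U161.AM
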