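import Pool.Agent.U161.AM.Core
import Pool.Agent.U161.AM.Hall
import Pool.Agent.W963.GE.Dob

/-!
# The trichotomy for derived length three in terms of Mahler measures
-/

set_option autoImplicit false

namespace Pool.Agent.U161.AM

open Pool.Agent.N600.G3 Subgroup Polynomial
open scoped TensorProduct commutatorElement Pointwise NNReal
open Pool.Agent.TH53.UG (act main_track rho_of_two rho_of_dig integral_of_root eig_of_root)
open Pool.Agent.U161.AR
open Pool.Agent.W963.GE (MM MM_ge MM_gt base eta_ge log_base_ge)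
open Pool.Agent.H785R3.GrowthA (gam)

universe u

/-- a number of smallest Mahler measure in a set of algebraic integers of bounded degree -/
lemma exists_min {Λ : Set ℂ} (hne : Λ.Nonempty) {n : ℕ}
    (hΛ : ∀ z ∈ Λ, IsIntegral ℤ z ∧ (minpoly ℤ z).natDegree ≤ n) :
    ∃ z ∈ Λ, ∀ w ∈ Λ, MM z ≤ MM w := by
  obtain ⟨z1, h1⟩ := hne
  have h0 : 0 ≤ MM z1 := zero_le_one.trans (MM_ge z1 (hΛ z1 h1).1)
  have hfin := finite_mahlerMeasure_le n ⟨MM z1, h0⟩
  set V := {p : ℤ[X] | p.natDegree ≤ n ∧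
    (p.map (Int.castRingHom ℂ)).mahlerMeasure ≤ (⟨MM z1, h0⟩ : ℝ≥0)} with hV
  have hs : (V ∩ (minpoly ℤ '' Λ)).Finite := hfin.subset Set.inter_subset_left
  have hsne : (V ∩ (minpoly ℤ '' Λ)).Nonempty :=
    ⟨minpoly ℤ z1, ⟨(hΛ z1 h1).2, le_rfl⟩, z1, h1, rfl⟩
  obtain ⟨p, ⟨hp, z, hz, rfl⟩, hmin⟩ := Set.exists_min_image _
    (fun p : ℤ[X] => (p.map (Int.castRingHom ℂ)).mahlerMeasure) hs hsne
  refine ⟨z, hz, fun w hw => ?_⟩
  rcases le_total (MM w) (MM z1) with h | h
  · exact hmin (minpoly ℤ w) ⟨⟨(hΛ w hw).2, h⟩, w, hw, rfl⟩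
  · exact (hmin (minpoly ℤ z1) ⟨⟨(hΛ z1 h1).2, le_rfl⟩, z1, h1, rfl⟩).trans h

/-- the digit sums and the Mahler measure -/
lemma eta_min {x : ℂ} (hx0 : x ≠ 0) (hx : IsIntegral ℤ x) :
    min 1 (Real.log (MM x)) / 8 ≤ H746UG.eta x :=
  (log_base_ge (MM_ge x hx)).trans (eta_ge x hx0 hx)

/-- `z` is a free unit -/
def FU (z : ℂ) : Prop := IsIntegral ℤ z ∧ IsIntegral ℤ z⁻¹ ∧ ∀ n : ℕ, 0 < n → z ^ n ≠ 1

/-- **the trichotomy** -/
theorem gap {G : Type u} [Group G] (S : Set G) (hfin : S.Finite) (hsym : S⁻¹ = S)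
    (hgen : closure S = ⊤) (H : Subgroup G) (d : ℕ) (hH : H.index ≠ 0) (hd : H.index ≤ d) :
    1 / (128 * (2 * d - 1)) ≤ H746UG.rho S ∨
      (∃ z : ℂ, FU z ∧ min 1 (Real.log (MM z)) / (31416 * (2 * d - 1)) ≤ H746UG.rho S ∧
        ((∃ t : H, Eig (derivedSeries H 1) t z) ∨
          ∃ t ∈ derivedSeries H 1, Eig (derivedSeries H 2) t z)) ∨
      (Group.IsVirtuallyNilpotent (H ⧸ derivedSeries H 2) ∧
        (∀ K : Subgroup (H ⧸ derivedSeries H 3), K.FG) ∧
        Group.IsVirtuallyNilpotent (derivedSeries (H ⧸ derivedSeries H 3) 1) ∧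
        (Group.IsNilpotent (derivedSeries (H ⧸ derivedSeries H 3) 1) →
          Group.IsVirtuallyNilpotent (H ⧸ derivedSeries H 3))) := by
  have hd1 : 1 ≤ d := by omega
  have hpos : (0 : ℝ) < 2 * d - 1 := by
    have : (1 : ℝ) ≤ d := by exact_mod_cast hd1
    linarith
  have hl2 : 0.6931471803 < Real.log 2 := Real.log_two_gt_d9
  rcases final S hfin hsym hgen H d hH hd with h | ⟨h, -⟩
  · left
    refine le_trans ?_ h
    rw [div_le_div_iff₀ (by positivity) (by positivity)]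
    nlinarith
  rcases S.eq_empty_or_nonempty with hS | hne
  · right; right
    have htriv : ∀ x : G, x = 1 := by
      intro x
      have hx : x ∈ closure S := by rw [hgen]; exact mem_top x
      rw [hS, Subgroup.closure_empty, Subgroup.mem_bot] at hx
      exact hx
    have hsG : Subsingleton G := ⟨fun a b => by rw [htriv a, htriv b]⟩
    have hsH : Subsingleton H := ⟨fun a b => Subtype.ext (hsG.elim _ _)⟩
    have hv : ∀ (Q : Type u) [Group Q], Subsingleton Q → Group.IsVirtuallyNilpotent Q := by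
      intro Q _ hQ
      refine ⟨⊥, ?_, ?_⟩
      · infer_instance
      · constructor
        rw [Subgroup.index_bot]
        simp
    have hq : Subsingleton (H ⧸ derivedSeries H 3) :=
      (QuotientGroup.mk'_surjective (derivedSeries H 3)).subsingleton
    refine ⟨hv _ ?_, h, hv _ ?_, fun _ => hv _ hq⟩
    · exact (QuotientGroup.mk'_surjective (derivedSeries H 2)).subsingleton
    · infer_instance
  set T := W963.GE.TT S H d with hT
  have hTfin : T.Finite := W963.GE.TT_finite S hfin H d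
  have hTgen : closure T = ⊤ := W963.GE.TT_gen S hgen H hH hd
  have h4 := W963.GE.rho_TT S hfin hne H hd1
  have he : ((2 * d - 1 : ℕ) : ℝ) = 2 * d - 1 := by
    rw [Nat.cast_sub (by omega)]; push_cast; ring
  rw [he] at h4
  have hlow : ∀ c : ℝ, c ≤ H746UG.rho T → c / (2 * d - 1) ≤ H746UG.rho S := by
    intro c hc
    rw [div_le_iff₀ hpos, mul_comm (H746UG.rho S)]
    exact hc.trans h4
  have hmm : ∀ z : ℂ, IsIntegral ℤ z → 0 ≤ min 1 (Real.log (MM z)) := fun z hz =>
    le_min zero_le_one (Real.log_nonneg (MM_ge z hz))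
  have htwo : (∀ n, 2 ^ n ≤ Nat.card ↥(T ^ n) ^ (2 ^ (1 + 1))) →
      1 / (128 * (2 * d - 1)) ≤ H746UG.rho S := by
    intro h1
    have h2 := hlow _ (rho_of_two T (L := 2 ^ (1 + 1)) (by norm_num) h1)
    refine le_trans ?_ h2
    push_cast
    rw [div_div, div_le_div_iff₀ (by positivity) (by positivity)]
    nlinarith
  have hdig : ∀ (t : H) (x : ℂ), x ≠ 0 → (∀ n > 0, x ^ n ≠ 1) → IsIntegral ℤ x →
      Eig (gam H 1) t x → (∀ n, Nat.card (H746UG.DS x n) ≤ Nat.card ↥(T ^ n) ^ (2 ^ (1 + 1))) →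
      1 / (128 * (2 * d - 1)) ≤ H746UG.rho S ∨
      (∃ z : ℂ, FU z ∧ min 1 (Real.log (MM z)) / (31416 * (2 * d - 1)) ≤ H746UG.rho S ∧
        ((∃ t : H, Eig (derivedSeries H 1) t z) ∨
          ∃ t ∈ derivedSeries H 1, Eig (derivedSeries H 2) t z)) := by
    intro t x hx0 hx hxi hE hn
    have h2 := hlow _ (rho_of_dig T (L := 2 ^ (1 + 1)) (by norm_num) hx0 hn)
    by_cases hi : IsIntegral ℤ x⁻¹
    · right
      refine ⟨x, ⟨hxi, hi, hx⟩, ?_, Or.inl ⟨t, hE⟩⟩
      refine le_trans ?_ h2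
      have h3 := eta_min hx0 hxi
      have h5 := hmm x hxi
      push_cast
      rw [div_div, div_le_div_iff₀ (by positivity) (by positivity)]
      have h6 : min 1 (Real.log (MM x)) ≤ 8 * H746UG.eta x := by linarith
      have h7 : 0 ≤ H746UG.eta x := by linarith
      nlinarith [mul_nonneg h7 hpos.le, mul_le_mul_of_nonneg_right h6 hpos.le]
    · left
      rw [H746UG.eta_eq_log_two x hx0 (fun h => hi h.2)] at h2
      refine le_trans ?_ h2
      push_cast
      rw [div_div, div_le_div_iff₀ (by positivity) (by positivity)]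
      nlinarith
  -- the first level
  rcases main_track hTfin hTgen (k := 1) le_rfl with h1 | ⟨hMf, t, b, x, hx0, hx, hp, hn⟩ | ⟨hvn, -⟩
  · exact Or.inl (htwo h1)
  · rcases hdig t x hx0 hx (integral_of_root _ b hp)
      (eig_of_root (act (gam H 1) t) b hp (minpoly.aeval ℤ x)) hn with h1 | h1
    · exact Or.inl h1
    · exact Or.inr (Or.inl h1)
  -- the quotient by the third derived subgroup
  have hD : derivedSeries H 3 ≤ ⁅gam H 1, gam H 1⁆ := by
    rw [derivedSeries_succ]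
    exact commutator_le_left (derivedSeries H 2) (derivedSeries H 2)
  rcases second (derivedSeries H 3) hD hTfin hTgen h with h1 | ⟨t, x, hx0, hx, hxi, hE, hn⟩ | hnil
  · exact Or.inl (htwo h1)
  · rcases hdig t x hx0 hx hxi hE hn with h1 | h1
    · exact Or.inl h1
    · exact Or.inr (Or.inl h1)
  -- the second level
  have hfinM : Module.Finite ℤ (AbN (derivedSeries H 2)) := fin_of_fg h
  by_cases hex : ∃ t ∈ commutator H, ∃ z : ℂ, EF (derivedSeries H 2) t z ∧ ∀ n > 0, z ^ n ≠ 1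
  swap
  · right; right
    refine ⟨hvn, h, vn_quot h ?_, hnil⟩
    · intro t ht z hz
      by_contra hcon
      push Not at hcon
      exact hex ⟨t, ht, z, hz, hcon⟩
  right; left
  have h1T : (1 : H) ∈ T := by
    show ((1 : H) : G) ∈ (insert 1 S) ^ (2 * d - 1)
    have : (1 : G) ∈ insert 1 S := Set.mem_insert _ _
    simpa using Set.pow_mem_pow (n := 2 * d - 1) this
  have hinv1 : (insert 1 S)⁻¹ = insert 1 S := by
    rw [Set.inv_insert, inv_one, hsym]
  have hTinv : T⁻¹ = T := by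
    ext x
    rw [Set.mem_inv]
    constructor
    · intro hx
      have := inv_mem_pow hinv1 (show ((x⁻¹ : H) : G) ∈ (insert 1 S) ^ (2 * d - 1) from hx)
      rw [← coe_inv, inv_inv] at this
      exact this
    · intro hx
      exact inv_mem_pow hinv1 (show (x : G) ∈ (insert 1 S) ^ (2 * d - 1) from hx)
  -- the eigenvalue of smallest Mahler measure
  set Λ : Set ℂ := {z | ∃ t ∈ commutator H, EF (derivedSeries H 2) t z ∧ Free z} with hΛ
  obtain ⟨t0, ht0, z0, hz0, hz0'⟩ := hex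
  obtain ⟨z, ⟨t, ht, hz, hzf⟩, hmin⟩ := exists_min (Λ := Λ)
    (n := Module.finrank ℂ (ℂ ⊗[ℤ] AbN (derivedSeries H 2))) ⟨z0, t0, ht0, hz0, hz0'⟩ (by
      rintro z ⟨t, ht, hz, hzf⟩
      have h1 := integral_of_ef _ hz
      exact ⟨h1, deg_le _ h1 fun w hw => eig_conj _ hz hw⟩)
  have h1 := integral_of_ef _ hz
  have h2 := integral_of_ef _ (ef_inv _ hz)
  have h3 := core T hTfin h1T hTinv hTgen (derivedSeries H 2) mem_comm_iff
    (Real.log_nonneg (MM_ge z h1)) (by
      intro s hs w hw hwf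
      exact Real.log_le_log (zero_lt_one.trans_le (MM_ge z h1)) (hmin w ⟨s, hs, hw, hwf⟩))
    ⟨t, ht, z, hz, hzf⟩
  refine ⟨z, ⟨h1, h2, hzf⟩, ?_, Or.inr ⟨t, ht, eig_of_ef _ hz⟩⟩
  have h5 := hlow _ h3
  rw [div_div] at h5
  exact h5

end Pool.Agent.U161.AM
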