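import Mathlib
import Pool.Agent.W963.GE.Count

/-!
# Coincidences of subset sums of vectors: a bound by Gaussian weights
-/

set_option autoImplicit false

namespace Pool.Agent.U161.AM

open Matrix Finset
open scoped ComplexConjugate ComplexOrder
open Pool.Agent.W963.GE (dd cosh_ineq)

variable {ι : Type*} [Fintype ι] [DecidableEq ι]

/-- the real part of `X* A X` -/
noncomputable def form (A : Matrix ι ι ℂ) (X : ι → ℂ) : ℝ := (star X ⬝ᵥ (A *ᵥ X)).re

lemma herm_conj {A : Matrix ι ι ℂ} (hA : Aᴴ = A) (z w : ι → ℂ) :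
    star z ⬝ᵥ (A *ᵥ w) = conj (star w ⬝ᵥ (A *ᵥ z)) := by
  have h1 : conj (star w ⬝ᵥ (A *ᵥ z)) = star (star w ⬝ᵥ (A *ᵥ z)) := rfl
  rw [h1, Matrix.star_dotProduct]
  congr 1
  rw [star_mulVec, hA, ← dotProduct_mulVec]

lemma form_add {A : Matrix ι ι ℂ} (hA : Aᴴ = A) (X u : ι → ℂ) (t : ℝ) :
    form A (X + (t : ℂ) • u) = form A X + 2 * t * (star u ⬝ᵥ (A *ᵥ X)).re + t ^ 2 * form A u := by
  unfold form
  rw [star_add, star_smul, mulVec_add, mulVec_smul, add_dotProduct, dotProduct_add,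
    dotProduct_add, smul_dotProduct, smul_dotProduct, dotProduct_smul, dotProduct_smul,
    herm_conj hA X u]
  simp only [Complex.add_re, smul_eq_mul, RCLike.star_def, Complex.conj_ofReal, Complex.mul_re,
    Complex.ofReal_re, Complex.ofReal_im, zero_mul, sub_zero, Complex.conj_re, Complex.mul_im]
  ring

lemma form_nonneg {A : Matrix ι ι ℂ} (hA : A.PosSemidef) (X : ι → ℂ) : 0 ≤ form A X :=
  hA.re_dotProduct_nonneg X

lemma form_im {A : Matrix ι ι ℂ} (hA : Aᴴ = A) (X : ι → ℂ) :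
    star X ⬝ᵥ (A *ᵥ X) = ((form A X : ℝ) : ℂ) := by
  have h := herm_conj hA X X
  have h2 := Complex.conj_eq_iff_im.1 h.symm
  apply Complex.ext
  · rfl
  · rw [h2]; simp

/-- the covariance after adding the vector `u` -/
noncomputable def upd (Q : Matrix ι ι ℂ) (u : ι → ℂ) : Matrix ι ι ℂ :=
  Q + (4 : ℂ) • vecMulVec u (star u)

lemma upd_posDef {Q : Matrix ι ι ℂ} (hQ : Q.PosDef) (u : ι → ℂ) : (upd Q u).PosDef := by
  refine hQ.add_posSemidef ?_
  refine (posSemidef_vecMulVec_self_star u).smul ?_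
  norm_num

lemma form_upd (Q : Matrix ι ι ℂ) (u z : ι → ℂ) :
    form (upd Q u) z = form Q z + 4 * ‖star z ⬝ᵥ u‖ ^ 2 := by
  unfold form upd
  rw [add_mulVec, dotProduct_add, smul_mulVec, dotProduct_smul, Complex.add_re]
  congr 1
  have h1 : vecMulVec u (star u) *ᵥ z = (star u ⬝ᵥ z) • u := by
    rw [vecMulVec_mulVec]
    funext i
    simp [mul_comm]
  rw [h1, dotProduct_smul]
  have h2 : star u ⬝ᵥ z = conj (star z ⬝ᵥ u) := by
    rw [Matrix.star_dotProduct]
    rfl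
  rw [h2]
  simp only [smul_eq_mul]
  have h3 : conj (star z ⬝ᵥ u) * (star z ⬝ᵥ u) = ((‖star z ⬝ᵥ u‖ ^ 2 : ℝ) : ℂ) := by
    rw [mul_comm, Complex.mul_conj, Complex.normSq_eq_norm_sq]
  rw [h3]
  have h4 : (4 : ℂ) * ((‖star z ⬝ᵥ u‖ ^ 2 : ℝ) : ℂ) = ((4 * ‖star z ⬝ᵥ u‖ ^ 2 : ℝ) : ℂ) := by
    push_cast; ring
  rw [h4, Complex.ofReal_re]

/-- Sherman-Morrison -/
lemma form_inv_upd {Q : Matrix ι ι ℂ} (hQ : Q.PosDef) (u X : ι → ℂ) :
    form (upd Q u)⁻¹ X = form Q⁻¹ X -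
      4 / (1 + 4 * form Q⁻¹ u) * ‖star u ⬝ᵥ (Q⁻¹ *ᵥ X)‖ ^ 2 := by
  set A := Q⁻¹ with hA
  have hAp : A.PosDef := hQ.inv
  have hAH : Aᴴ = A := hAp.isHermitian
  set n := form A u with hn
  have hn0 : 0 ≤ n := form_nonneg hAp.posSemidef u
  set v := A *ᵥ u with hv
  set κ : ℝ := 4 / (1 + 4 * n) with hκ
  have hu : IsUnit Q.det := (Matrix.isUnit_iff_isUnit_det Q).1 hQ.isUnit
  have hvs : star v = star u ᵥ* A := by rw [hv, star_mulVec, hAH]
  have hunu : star u ⬝ᵥ v = (n : ℂ) := form_im hAH u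
  have hκn : (κ : ℂ) * (1 + 4 * n) = 4 := by
    have : κ * (1 + 4 * n) = 4 := by rw [hκ]; field_simp
    exact_mod_cast this
  have hinv : (A - (κ : ℂ) • vecMulVec v (star v)) * upd Q u = 1 := by
    unfold upd
    have e1 : A * Q = 1 := nonsing_inv_mul _ hu
    have e2 : vecMulVec v (star v) * Q = vecMulVec v (star u) := by
      rw [vecMulVec_mul, hvs, vecMul_vecMul, e1, vecMul_one]
    have e3 : A * vecMulVec u (star u) = vecMulVec v (star u) := by
      rw [mul_vecMulVec]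
    have e4 : vecMulVec v (star v) * vecMulVec u (star u) = (n : ℂ) • vecMulVec v (star u) := by
      rw [vecMulVec_mul_vecMulVec]
      have : star v ⬝ᵥ u = (n : ℂ) := by
        rw [hvs, ← dotProduct_mulVec]; exact hunu
      rw [this]
      ext i j
      simp [vecMulVec_apply]
      try ring
    rw [sub_mul, mul_add, mul_add, e1, Matrix.smul_mul, Matrix.smul_mul, e2, Matrix.mul_smul,
      Matrix.mul_smul, e3, e4, smul_smul, smul_smul]
    have e5 : (4 : ℂ) • vecMulVec v (star u) = (κ : ℂ) • vecMulVec v (star u) +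
        ((κ : ℂ) * 4 * n) • vecMulVec v (star u) := by
      rw [← add_smul]
      congr 1
      linear_combination -hκn
    rw [e5]
    have e6 : (κ : ℂ) * (4 * (n : ℂ)) = (κ : ℂ) * 4 * n := by ring
    first
      | rw [e6]; abel
      | (rw [smul_smul, e6]; abel)
      | (rw [smul_smul]; abel)
      | abel
  have hA' : (upd Q u)⁻¹ = A - (κ : ℂ) • vecMulVec v (star v) := inv_eq_left_inv hinv
  rw [hA']
  unfold form
  rw [sub_mulVec, dotProduct_sub, smul_mulVec, dotProduct_smul, Complex.sub_re]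
  congr 1
  have h1 : vecMulVec v (star v) *ᵥ X = (star v ⬝ᵥ X) • v := by
    rw [vecMulVec_mulVec]
    funext i
    simp [mul_comm]
  have h2 : star v ⬝ᵥ X = star u ⬝ᵥ (A *ᵥ X) := by
    rw [hvs, ← dotProduct_mulVec]
  have h3 : star X ⬝ᵥ v = conj (star u ⬝ᵥ (A *ᵥ X)) := by
    rw [hv]; exact herm_conj hAH X u
  rw [h1, dotProduct_smul, h2, h3]
  simp only [smul_eq_mul]
  rw [Complex.mul_conj, Complex.normSq_eq_norm_sq]
  rw [← Complex.ofReal_mul, Complex.ofReal_re]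

/-- the scalar inequality -/
lemma scal (n σ : ℝ) (hn : 0 ≤ n) :
    2 + 2 * Real.exp (-n) * Real.cosh (2 * σ) ≤
      4 * (Real.exp (-(1 / 17 * (n / (1 + n)))) * Real.exp (4 / (1 + 4 * n) * σ ^ 2)) := by
  have h1n : 0 < 1 + n := by linarith
  rcases le_total n (3 / 4) with h | h
  · have h1 := cosh_ineq (Real.exp (-n)) (2 * σ) (Real.exp_pos _).le
      (Real.exp_le_one_iff.2 (by linarith))
    have h2 : (2 * σ) ^ 2 / 4 = σ ^ 2 := by ring
    rw [h2] at h1
    have h3 : Real.exp (-n) ≤ 1 - n + n ^ 2 / 2 := by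
      have h4 : Real.exp n * (1 - n + n ^ 2 / 2) ≥ 1 := by
        have h5 : 1 + n + n ^ 2 / 2 ≤ Real.exp n := by
          have := Real.quadratic_le_exp_of_nonneg hn
          linarith
        have h6 : 0 ≤ 1 - n + n ^ 2 / 2 := by nlinarith
        have h7 : (1 + n + n ^ 2 / 2) * (1 - n + n ^ 2 / 2) = 1 + n ^ 4 / 4 := by ring
        nlinarith [mul_le_mul_of_nonneg_right h5 h6, pow_nonneg hn 4]
      rw [Real.exp_neg, inv_le_iff_one_le_mul₀ (Real.exp_pos n)]
      linarith [mul_comm (Real.exp n) (1 - n + n ^ 2 / 2)]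
    have h4 : 1 + Real.exp (-n) ≤ 2 * Real.exp (-(1 / 17 * (n / (1 + n)))) := by
      have h5 : 1 - 1 / 17 * (n / (1 + n)) ≤ Real.exp (-(1 / 17 * (n / (1 + n)))) := by
        have := Real.add_one_le_exp (-(1 / 17 * (n / (1 + n))))
        linarith
      have h6 : n / (1 + n) ≤ n := by
        rw [div_le_iff₀ h1n]; nlinarith
      nlinarith
    have h5 : Real.exp (σ ^ 2) ≤ Real.exp (4 / (1 + 4 * n) * σ ^ 2) := by
      rw [Real.exp_le_exp]
      have h6 : 1 ≤ 4 / (1 + 4 * n) := by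
        rw [le_div_iff₀ (by positivity)]; linarith
      nlinarith [sq_nonneg σ]
    have h6 : (1 + Real.exp (-n)) * Real.exp (σ ^ 2) ≤
        2 * Real.exp (-(1 / 17 * (n / (1 + n)))) * Real.exp (4 / (1 + 4 * n) * σ ^ 2) :=
      mul_le_mul h4 h5 (Real.exp_pos _).le (by positivity)
    linarith
  · have hs0 : 0 < 1 + 4 * n := by linarith
    set E := Real.exp (4 / (1 + 4 * n) * σ ^ 2) with hE
    have hE1 : 1 ≤ E := Real.one_le_exp (by positivity)
    have e1 : Real.exp (1 / 4) ≤ 1.2841 := by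
      have h2 : Real.exp (1 / 4) ^ 4 < (1.2841 : ℝ) ^ 4 := by
        rw [← Real.exp_nat_mul]
        have e : ((4 : ℕ) : ℝ) * (1 / 4) = 1 := by norm_num
        rw [e]
        exact Real.exp_one_lt_d9.trans (by norm_num)
      exact (lt_of_pow_lt_pow_left₀ 4 (by norm_num) h2).le
    have e2 : Real.exp (-(3 / 4)) ≤ 0.4724 := by
      rw [Real.exp_neg, inv_le_comm₀ (Real.exp_pos _) (by norm_num)]
      have h2 : ((0.4724 : ℝ)⁻¹) ^ 4 < Real.exp (3 / 4) ^ 4 := by
        rw [← Real.exp_nat_mul]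
        have e : ((4 : ℕ) : ℝ) * (3 / 4) = ((3 : ℕ) : ℝ) * 1 := by norm_num
        rw [e, Real.exp_nat_mul]
        calc ((0.4724 : ℝ)⁻¹) ^ 4 < (2.7182818283 : ℝ) ^ 3 := by norm_num
          _ ≤ _ := pow_le_pow_left₀ (by norm_num) Real.exp_one_gt_d9.le 3
      exact (lt_of_pow_lt_pow_left₀ 4 (Real.exp_pos _).le h2).le
    have e3 : (1 : ℝ) - 1 / 17 ≤ Real.exp (-(1 / 17 * (n / (1 + n)))) := by
      have h5 : 1 - 1 / 17 * (n / (1 + n)) ≤ Real.exp (-(1 / 17 * (n / (1 + n)))) := by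
        have := Real.add_one_le_exp (-(1 / 17 * (n / (1 + n))))
        linarith
      have h6 : n / (1 + n) ≤ 1 := by
        rw [div_le_iff₀ h1n]; linarith
      linarith
    -- the two exponentials
    have e4 : ∀ τ : ℝ, 0 ≤ τ → Real.exp (-n) * Real.exp (2 * τ) ≤
        1.2841 * Real.exp (4 / (1 + 4 * n) * τ ^ 2) := by
      intro τ _
      rw [← Real.exp_add]
      refine le_trans ?_ (mul_le_mul_of_nonneg_right e1 (Real.exp_pos _).le)
      rw [← Real.exp_add, Real.exp_le_exp]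
      have h2 : 4 / (1 + 4 * n) * τ ^ 2 = τ ^ 2 / (n + 1 / 4) := by
        field_simp
        ring
      have h3 : 2 * τ ≤ (n + 1 / 4) + τ ^ 2 / (n + 1 / 4) := by
        have h4 : (0 : ℝ) < n + 1 / 4 := by linarith
        have h5 : τ ^ 2 / (n + 1 / 4) * (n + 1 / 4) = τ ^ 2 := by field_simp
        have h6 : 0 ≤ τ ^ 2 / (n + 1 / 4) := by positivity
        by_contra hcon
        push Not at hcon
        have h7 := mul_lt_mul_of_pos_right hcon h4
        nlinarith [sq_nonneg (τ - (n + 1 / 4))]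
      linarith
    have e5 : Real.exp (-n) * Real.cosh (2 * σ) ≤ (1.2841 * E + 0.4724) / 2 := by
      have h2 : Real.cosh (2 * σ) = (Real.exp (2 * |σ|) + Real.exp (-(2 * |σ|))) / 2 := by
        rw [← Real.cosh_abs, abs_mul, abs_two, Real.cosh_eq]
      rw [h2]
      have h3 := e4 |σ| (abs_nonneg σ)
      rw [sq_abs] at h3
      have h4 : Real.exp (-n) * Real.exp (-(2 * |σ|)) ≤ 0.4724 := by
        rw [← Real.exp_add]
        refine le_trans ?_ e2
        rw [Real.exp_le_exp]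
        have := abs_nonneg σ
        linarith
      have h5 : Real.exp (-n) * ((Real.exp (2 * |σ|) + Real.exp (-(2 * |σ|))) / 2) =
        (Real.exp (-n) * Real.exp (2 * |σ|) + Real.exp (-n) * Real.exp (-(2 * |σ|))) / 2 := by ring
      rw [h5]
      linarith
    have e6 : (1 - 1 / 17) * E ≤ Real.exp (-(1 / 17 * (n / (1 + n)))) * E :=
      mul_le_mul_of_nonneg_right e3 (by linarith)
    nlinarith

/-- one step -/
lemma step {Q : Matrix ι ι ℂ} (hQ : Q.PosDef) (u X : ι → ℂ) :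
    ∑ a : Bool × Bool, Real.exp (-form Q⁻¹ (X + ((dd a : ℝ) : ℂ) • u)) ≤
      4 * Real.exp (-(1 / 17 * (form Q⁻¹ u / (1 + form Q⁻¹ u)))) *
        Real.exp (-form (upd Q u)⁻¹ X) := by
  have hAp : (Q⁻¹).PosDef := hQ.inv
  have hAH : (Q⁻¹)ᴴ = Q⁻¹ := hAp.isHermitian
  set n := form Q⁻¹ u with hn
  have hn0 : 0 ≤ n := form_nonneg hAp.posSemidef u
  set s := star u ⬝ᵥ (Q⁻¹ *ᵥ X) with hs
  simp_rw [form_add hAH]
  rw [← hs, ← hn, form_inv_upd hQ, ← hs, ← hn]
  rw [Fintype.sum_prod_type]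
  simp only [Fintype.sum_bool, dd]
  simp only [if_true, Bool.false_eq_true, if_false]
  set N := form Q⁻¹ X with hN
  have t1 : Real.exp (-(N + 2 * (1 - 1) * s.re + (1 - 1) ^ 2 * n)) = Real.exp (-N) := by
    congr 1; ring
  have t2 : Real.exp (-(N + 2 * (1 - 0) * s.re + (1 - 0) ^ 2 * n)) =
      Real.exp (-N) * (Real.exp (-n) * Real.exp (-(2 * s.re))) := by
    rw [← Real.exp_add, ← Real.exp_add]; congr 1; ring
  have t3 : Real.exp (-(N + 2 * (0 - 1) * s.re + (0 - 1) ^ 2 * n)) =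
      Real.exp (-N) * (Real.exp (-n) * Real.exp (2 * s.re)) := by
    rw [← Real.exp_add, ← Real.exp_add]; congr 1; ring
  have t4 : Real.exp (-(N + 2 * (0 - 0) * s.re + (0 - 0) ^ 2 * n)) = Real.exp (-N) := by
    congr 1; ring
  rw [t1, t2, t3, t4]
  have h1 := scal n s.re hn0
  have h2 : s.re ^ 2 ≤ ‖s‖ ^ 2 := by
    rw [← sq_abs]
    exact pow_le_pow_left₀ (abs_nonneg _) (Complex.abs_re_le_norm s) 2
  have h3 : Real.exp (-(N - 4 / (1 + 4 * n) * ‖s‖ ^ 2)) =
      Real.exp (-N) * Real.exp (4 / (1 + 4 * n) * ‖s‖ ^ 2) := by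
    rw [← Real.exp_add]; congr 1; ring
  rw [h3]
  have h4 : Real.exp (4 / (1 + 4 * n) * s.re ^ 2) ≤ Real.exp (4 / (1 + 4 * n) * ‖s‖ ^ 2) := by
    rw [Real.exp_le_exp]
    exact mul_le_mul_of_nonneg_left h2 (by positivity)
  have hc : Real.exp (-n) * Real.exp (-(2 * s.re)) + Real.exp (-n) * Real.exp (2 * s.re) =
      2 * Real.exp (-n) * Real.cosh (2 * s.re) := by
    rw [Real.cosh_eq]; ring
  have h5 : 2 + 2 * Real.exp (-n) * Real.cosh (2 * s.re) ≤
      4 * (Real.exp (-(1 / 17 * (n / (1 + n)))) * Real.exp (4 / (1 + 4 * n) * ‖s‖ ^ 2)) := by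
    refine h1.trans ?_
    have := mul_le_mul_of_nonneg_left h4 (Real.exp_pos (-(1 / 17 * (n / (1 + n))))).le
    linarith
  have h6 := mul_le_mul_of_nonneg_left h5 (Real.exp_pos (-N)).le
  calc _ = Real.exp (-N) * (2 + (Real.exp (-n) * Real.exp (-(2 * s.re)) +
        Real.exp (-n) * Real.exp (2 * s.re))) := by ring
    _ = Real.exp (-N) * (2 + 2 * Real.exp (-n) * Real.cosh (2 * s.re)) := by rw [hc]
    _ ≤ _ := h6
    _ = _ := by ring

/-- the variational lower bound of `n / (1 + n)` -/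
lemma vari {Q : Matrix ι ι ℂ} (hQ : Q.PosDef) (u z : ι → ℂ) :
    2 * (star z ⬝ᵥ u).re - form Q z - 4 * ‖star z ⬝ᵥ u‖ ^ 2 ≤
      form Q⁻¹ u / (1 + form Q⁻¹ u) := by
  have hAp : (Q⁻¹).PosDef := hQ.inv
  have hQH : Qᴴ = Q := hQ.isHermitian
  have hAH : (Q⁻¹)ᴴ = Q⁻¹ := hAp.isHermitian
  have hu : IsUnit Q.det := (Matrix.isUnit_iff_isUnit_det Q).1 hQ.isUnit
  set n := form Q⁻¹ u with hn
  have hn0 : 0 ≤ n := form_nonneg hAp.posSemidef u
  set w := star z ⬝ᵥ u with hw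
  set y := ‖w‖ with hy
  have hy0 : 0 ≤ y := norm_nonneg _
  have hre : w.re ≤ y := Complex.re_le_norm w
  -- the inequality for all real `a`
  have key : ∀ a : ℝ, 2 * a * y ^ 2 - a ^ 2 * y ^ 2 * n ≤ form Q z := by
    intro a
    have h0 := form_nonneg hQ.posSemidef (z - ((a : ℂ) * conj w) • (Q⁻¹ *ᵥ u))
    have e1 : Q *ᵥ (Q⁻¹ *ᵥ u) = u := by
      rw [mulVec_mulVec, mul_nonsing_inv _ hu, one_mulVec]
    have e2 : star (Q⁻¹ *ᵥ u) ⬝ᵥ (Q *ᵥ z) = conj w := by
      rw [herm_conj hQH, e1]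
    have e3 : star (Q⁻¹ *ᵥ u) ⬝ᵥ u = (n : ℂ) := by
      rw [star_mulVec, hAH, ← dotProduct_mulVec]
      exact form_im hAH u
    have e4 : form Q (z - ((a : ℂ) * conj w) • (Q⁻¹ *ᵥ u)) =
        form Q z - (2 * a * y ^ 2 - a ^ 2 * y ^ 2 * n) := by
      unfold form
      rw [mulVec_sub, star_sub, sub_dotProduct, dotProduct_sub, dotProduct_sub, mulVec_smul,
        dotProduct_smul, dotProduct_smul, star_smul, smul_dotProduct, smul_dotProduct, e1, e2, e3,
        ← hw]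
      simp only [smul_eq_mul, RCLike.star_def, map_mul, Complex.conj_ofReal, Complex.conj_conj]
      have hww : w * conj w = ((y ^ 2 : ℝ) : ℂ) := by
        rw [Complex.mul_conj, Complex.normSq_eq_norm_sq]
      have hww' : conj w * w = ((y ^ 2 : ℝ) : ℂ) := by rw [mul_comm]; exact hww
      have e5 : (a : ℂ) * conj w * w = ((a * y ^ 2 : ℝ) : ℂ) := by
        rw [mul_assoc, hww']; push_cast; ring
      have e6 : (a : ℂ) * w * conj w = ((a * y ^ 2 : ℝ) : ℂ) := by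
        rw [mul_assoc, hww]; push_cast; ring
      have e7 : (a : ℂ) * conj w * ((a : ℂ) * w * (n : ℂ)) = ((a ^ 2 * y ^ 2 * n : ℝ) : ℂ) := by
        have : (a : ℂ) * conj w * ((a : ℂ) * w * (n : ℂ)) = a * a * (conj w * w) * n := by ring
        rw [this, hww']; push_cast; ring
      have e8 : (a : ℂ) * w * ((a : ℂ) * conj w * (n : ℂ)) = ((a ^ 2 * y ^ 2 * n : ℝ) : ℂ) := by
        have : (a : ℂ) * w * ((a : ℂ) * conj w * (n : ℂ)) = a * a * (conj w * w) * n := by ring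
        rw [this, hww']; push_cast; ring
      simp only [Complex.sub_re, e5, e6]
      first
        | rw [e7]
        | rw [e8]
      simp only [Complex.ofReal_re]
      ring
    rw [e4] at h0
    linarith
  rcases hn0.eq_or_lt with h | h
  · -- `n = 0`
    have hy1 : y = 0 := by
      by_contra hne
      have hyp : 0 < y := lt_of_le_of_ne hy0 (Ne.symm hne)
      have h1 := key ((form Q z + 1) / y ^ 2)
      rw [← h] at h1
      have h2 : 2 * ((form Q z + 1) / y ^ 2) * y ^ 2 = 2 * (form Q z + 1) := by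
        field_simp
      rw [h2] at h1
      have h3 := form_nonneg hQ.posSemidef z
      linarith
    rw [← h, hy1]
    have h3 := form_nonneg hQ.posSemidef z
    have : w.re ≤ 0 := by rw [← hy1]; exact hre
    simp
    linarith
  · have h1 := key (1 / n)
    have h2 : 2 * (1 / n) * y ^ 2 - (1 / n) ^ 2 * y ^ 2 * n = y ^ 2 / n := by
      field_simp; ring
    rw [h2] at h1
    have h3 : 2 * y ≤ n / (1 + n) + (y ^ 2 / n + y ^ 2) := by
      have h4 : y ^ 2 / n + y ^ 2 = y ^ 2 * ((1 + n) / n) := by field_simp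
      rw [h4]
      set r := (1 + n) / n with hr
      have hr0 : 0 < r := by positivity
      have h5 : n / (1 + n) = 1 / r := by rw [hr]; field_simp
      rw [h5]
      have h6 : 0 ≤ (y * r - 1) ^ 2 / r := by positivity
      have h7 : (y * r - 1) ^ 2 / r = y ^ 2 * r - 2 * y + 1 / r := by field_simp; ring
      linarith
    nlinarith [sq_nonneg y]

/-- the bound for all subset sums, with the vectors in the given order -/
theorem col : ∀ (n : ℕ) (u z : Fin n → ι → ℂ) (Q : Matrix ι ι ℂ), Q.PosDef → ∀ X : ι → ℂ,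
    ∑ f : Fin n → Bool × Bool, Real.exp (-form Q⁻¹ (X + ∑ i, ((dd (f i) : ℝ) : ℂ) • u i)) ≤
      4 ^ n * Real.exp (-(1 / 17 * ∑ i, (2 * (star (z i) ⬝ᵥ u i).re - form Q (z i) -
        4 * ∑ j ∈ univ.filter (fun j => j ≤ i), ‖star (z i) ⬝ᵥ u j‖ ^ 2))) := by
  intro n
  induction n with
  | zero =>
    intro u z Q hQ X
    simp only [univ_eq_empty, sum_empty, add_zero, mul_zero, neg_zero, Real.exp_zero, mul_one,
      pow_zero]
    rw [Fintype.sum_unique, Real.exp_le_one_iff]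
    have := form_nonneg hQ.inv.posSemidef X
    linarith
  | succ n ih =>
    intro u z Q hQ X
    have h1 := ih (fun i => u i.succ) (fun i => z i.succ) (upd Q (u 0)) (upd_posDef hQ _) X
    rw [← (Fin.consEquiv fun _ : Fin (n + 1) => Bool × Bool).sum_comp, Fintype.sum_prod_type_right]
    have h2 : ∀ g : Fin n → Bool × Bool, ∑ a : Bool × Bool,
        Real.exp (-form Q⁻¹ (X + ∑ i, ((dd ((Fin.consEquiv fun _ : Fin (n + 1) => Bool × Bool)
          (a, g) i) : ℝ) : ℂ) • u i)) ≤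
        4 * Real.exp (-(1 / 17 * (form Q⁻¹ (u 0) / (1 + form Q⁻¹ (u 0))))) *
          Real.exp (-form (upd Q (u 0))⁻¹ (X + ∑ i, ((dd (g i) : ℝ) : ℂ) • u i.succ)) := by
      intro g
      have h3 := step hQ (u 0) (X + ∑ i, ((dd (g i) : ℝ) : ℂ) • u i.succ)
      refine le_trans (le_of_eq ?_) h3
      refine Finset.sum_congr rfl fun a _ => ?_
      congr 3
      rw [Fin.sum_univ_succ]
      have e1 : (Fin.consEquiv fun _ : Fin (n + 1) => Bool × Bool) (a, g) 0 = a := rfl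
      have e2 : ∀ i : Fin n, (Fin.consEquiv fun _ : Fin (n + 1) => Bool × Bool) (a, g) i.succ =
          g i := fun i => rfl
      rw [e1]
      simp_rw [e2]
      abel
    refine (Finset.sum_le_sum fun g _ => h2 g).trans ?_
    rw [← Finset.mul_sum]
    refine (mul_le_mul_of_nonneg_left h1 (by positivity)).trans ?_
    have h4 := vari hQ (u 0) (z 0)
    rw [Fin.sum_univ_succ]
    have h5 : (univ.filter fun j : Fin (n + 1) => j ≤ 0) = {0} := by
      ext j
      simp [Fin.le_zero_iff]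
    rw [h5, Finset.sum_singleton]
    have h6 : ∀ i : Fin n, form (upd Q (u 0)) (z i.succ) +
        4 * ∑ j ∈ univ.filter (fun j : Fin n => j ≤ i), ‖star (z i.succ) ⬝ᵥ u j.succ‖ ^ 2 =
        form Q (z i.succ) + 4 * ∑ j ∈ univ.filter (fun j : Fin (n + 1) => j ≤ i.succ),
          ‖star (z i.succ) ⬝ᵥ u j‖ ^ 2 := by
      intro i
      rw [form_upd]
      have h7 : ∑ j ∈ univ.filter (fun j : Fin (n + 1) => j ≤ i.succ),
          ‖star (z i.succ) ⬝ᵥ u j‖ ^ 2 = ‖star (z i.succ) ⬝ᵥ u 0‖ ^ 2 +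
          ∑ j ∈ univ.filter (fun j : Fin n => j ≤ i), ‖star (z i.succ) ⬝ᵥ u j.succ‖ ^ 2 := by
        rw [Finset.sum_filter, Fin.sum_univ_succ, Finset.sum_filter]
        simp [Fin.succ_le_succ_iff]
      rw [h7]; ring
    have h8 : ∑ i : Fin n, (2 * (star (z i.succ) ⬝ᵥ u i.succ).re - form (upd Q (u 0)) (z i.succ) -
        4 * ∑ j ∈ univ.filter (fun j : Fin n => j ≤ i), ‖star (z i.succ) ⬝ᵥ u j.succ‖ ^ 2) =
        ∑ i : Fin n, (2 * (star (z i.succ) ⬝ᵥ u i.succ).re - form Q (z i.succ) -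
        4 * ∑ j ∈ univ.filter (fun j : Fin (n + 1) => j ≤ i.succ),
          ‖star (z i.succ) ⬝ᵥ u j‖ ^ 2) := by
      refine Finset.sum_congr rfl fun i _ => ?_
      have := h6 i
      linarith
    rw [h8]
    set B := ∑ i : Fin n, (2 * (star (z i.succ) ⬝ᵥ u i.succ).re - form Q (z i.succ) -
        4 * ∑ j ∈ univ.filter (fun j : Fin (n + 1) => j ≤ i.succ),
          ‖star (z i.succ) ⬝ᵥ u j‖ ^ 2) with hB
    have h9 : 4 * Real.exp (-(1 / 17 * (form Q⁻¹ (u 0) / (1 + form Q⁻¹ (u 0))))) *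
        (4 ^ n * Real.exp (-(1 / 17 * B))) =
        4 ^ (n + 1) * Real.exp (-(1 / 17 * (form Q⁻¹ (u 0) / (1 + form Q⁻¹ (u 0)) + B))) := by
      rw [mul_add, neg_add, Real.exp_add]; ring
    rw [h9]
    apply mul_le_mul_of_nonneg_left _ (by positivity)
    rw [Real.exp_le_exp]
    linarith

/-- the number of the pairs of subsets with the same sum -/
theorem colkey (n : ℕ) (u z : Fin n → ι → ℂ) (key : Fin n → ℤ) (Q : Matrix ι ι ℂ)
    (hQ : Q.PosDef) :
    (Nat.card {f : Fin n → Bool × Bool // ∑ i, ((dd (f i) : ℝ) : ℂ) • u i = 0} : ℝ) ≤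
      4 ^ n * Real.exp (-(1 / 17 * ∑ i, (2 * (star (z i) ⬝ᵥ u i).re - form Q (z i) -
        4 * ∑ j ∈ univ.filter (fun j => key j ≤ key i), ‖star (z i) ⬝ᵥ u j‖ ^ 2))) := by
  classical
  set π := Tuple.sort key with hπ
  have hmono : Monotone (key ∘ π) := Tuple.monotone_sort key
  have h1 := col n (u ∘ π) (z ∘ π) Q hQ 0
  have h2 : (Nat.card {f : Fin n → Bool × Bool // ∑ i, ((dd (f i) : ℝ) : ℂ) • u i = 0} : ℝ) ≤
      ∑ f : Fin n → Bool × Bool,
        Real.exp (-form Q⁻¹ (0 + ∑ i, ((dd (f i) : ℝ) : ℂ) • (u ∘ π) i)) := by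
    rw [Nat.card_eq_fintype_card, Fintype.card_subtype, Finset.card_filter]
    push_cast
    rw [← (Equiv.arrowCongr π.symm (Equiv.refl (Bool × Bool))).symm.sum_comp (fun f =>
      if ∑ i, ((dd (f i) : ℝ) : ℂ) • u i = 0 then (1 : ℝ) else 0)]
    refine Finset.sum_le_sum fun f _ => ?_
    split_ifs with hf
    · have h3 : ∑ i, ((dd (f i) : ℝ) : ℂ) • (u ∘ π) i = 0 := by
        rw [← hf, ← Equiv.sum_comp π (fun i => ((dd (((Equiv.arrowCongr π.symm
          (Equiv.refl (Bool × Bool))).symm f) i) : ℝ) : ℂ) • u i)]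
        refine Finset.sum_congr rfl fun i _ => ?_
        simp [Equiv.arrowCongr]
      rw [h3]
      simp [form]
    · exact (Real.exp_pos _).le
  refine h2.trans (h1.trans ?_)
  apply mul_le_mul_of_nonneg_left _ (by positivity)
  rw [Real.exp_le_exp]
  have h3 : ∑ i, (2 * (star (z i) ⬝ᵥ u i).re - form Q (z i) -
        4 * ∑ j ∈ univ.filter (fun j => key j ≤ key i), ‖star (z i) ⬝ᵥ u j‖ ^ 2) ≤
      ∑ i, (2 * (star ((z ∘ π) i) ⬝ᵥ (u ∘ π) i).re - form Q ((z ∘ π) i) -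
        4 * ∑ j ∈ univ.filter (fun j => j ≤ i), ‖star ((z ∘ π) i) ⬝ᵥ (u ∘ π) j‖ ^ 2) := by
    rw [← Equiv.sum_comp π (fun i => 2 * (star (z i) ⬝ᵥ u i).re - form Q (z i) -
        4 * ∑ j ∈ univ.filter (fun j => key j ≤ key i), ‖star (z i) ⬝ᵥ u j‖ ^ 2)]
    refine Finset.sum_le_sum fun i _ => ?_
    have h4 : ∑ j ∈ univ.filter (fun j => j ≤ i), ‖star ((z ∘ π) i) ⬝ᵥ (u ∘ π) j‖ ^ 2 ≤
        ∑ j ∈ univ.filter (fun j => key j ≤ key (π i)), ‖star (z (π i)) ⬝ᵥ u j‖ ^ 2 := by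
      have h5 : ∑ j ∈ univ.filter (fun j => j ≤ i), ‖star ((z ∘ π) i) ⬝ᵥ (u ∘ π) j‖ ^ 2 =
          ∑ j ∈ (univ.filter (fun j => j ≤ i)).map π.toEmbedding,
            ‖star (z (π i)) ⬝ᵥ u j‖ ^ 2 := by
        rw [Finset.sum_map]
        rfl
      rw [h5]
      refine Finset.sum_le_sum_of_subset_of_nonneg ?_ fun _ _ _ => by positivity
      intro j hj
      obtain ⟨k, hk, rfl⟩ := Finset.mem_map.1 hj
      rw [Finset.mem_filter] at hk ⊢
      exact ⟨Finset.mem_univ _, hmono hk.2⟩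
    simp only [Function.comp_apply] at h4 ⊢
    linarith
  linarith

end Pool.Agent.U161.AM
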