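import Mathlib
import Pool.Agent.U161.AM.Col
import Pool.Agent.W963.GE.Pick

/-!
# Determinants of positive definite matrices; the Gramians of geometric sequences
-/

set_option autoImplicit false

namespace Pool.Agent.U161.AM

open Matrix Finset
open scoped ComplexConjugate ComplexOrder

variable {ι : Type*} [Fintype ι] [DecidableEq ι]

/-- the determinant of `1 + t C` -/
lemma det_one_add {C : Matrix ι ι ℂ} (hC : C.IsHermitian) (t : ℝ) :
    (1 + (t : ℂ) • C).det = ((∏ i, (1 + t * hC.eigenvalues i) : ℝ) : ℂ) := by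
  obtain ⟨U, hU⟩ : ∃ U : unitaryGroup ι ℂ, U = hC.eigenvectorUnitary := ⟨_, rfl⟩
  have h1 : C = (U : Matrix ι ι ℂ) * diagonal (fun i => ((hC.eigenvalues i : ℝ) : ℂ)) *
      star (U : Matrix ι ι ℂ) := by
    have h2 := hC.spectral_theorem
    rw [Unitary.conjStarAlgAut_apply] at h2
    rw [hU]
    exact h2
  have h3 : (U : Matrix ι ι ℂ) * star (U : Matrix ι ι ℂ) = 1 := (mem_unitaryGroup_iff).1 U.2
  have h4 : 1 + (t : ℂ) • C = (U : Matrix ι ι ℂ) *
      (1 + (t : ℂ) • diagonal (fun i => ((hC.eigenvalues i : ℝ) : ℂ))) *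
      star (U : Matrix ι ι ℂ) := by
    rw [mul_add, mul_one, add_mul, h3, Matrix.mul_smul, Matrix.smul_mul]
    congr 2
  rw [h4, det_mul, det_mul, mul_right_comm, ← det_mul, h3, det_one, one_mul]
  have h5 : 1 + (t : ℂ) • diagonal (fun i => ((hC.eigenvalues i : ℝ) : ℂ)) =
      diagonal (fun i => (((1 + t * hC.eigenvalues i : ℝ)) : ℂ)) := by
    rw [← diagonal_one, ← diagonal_smul, diagonal_add]
    congr 1
    funext i
    simp
  rw [h5, det_diagonal]
  push_cast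
  rfl

lemma trace_eig {C : Matrix ι ι ℂ} (hC : C.IsHermitian) :
    C.trace = ((∑ i, hC.eigenvalues i : ℝ) : ℂ) := by
  rw [hC.trace_eq_sum_eigenvalues]
  push_cast
  rfl

section sq

open scoped MatrixOrder

lemma exists_sqrt {Q : Matrix ι ι ℂ} (hQ : Q.PosDef) : ∃ S : Matrix ι ι ℂ, Sᴴ = S ∧ S * S = Q :=
  ⟨CFC.sqrt Q, (nonneg_iff_posSemidef.1 (CFC.sqrt_nonneg Q)).isHermitian,
    CFC.sqrt_mul_sqrt_self Q (nonneg_iff_posSemidef.2 hQ.posSemidef)⟩

end sq

/-- relative eigenvalues -/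
lemma spec {Q B : Matrix ι ι ℂ} (hQ : Q.PosDef) (hB : B.IsHermitian) :
    ∃ c : ι → ℝ, (∀ t : ℝ, (Q + (t : ℂ) • B).det = Q.det * ((∏ i, (1 + t * c i) : ℝ) : ℂ)) ∧
      (Q⁻¹ * B).trace = ((∑ i, c i : ℝ) : ℂ) ∧ (B.PosSemidef → ∀ i, 0 ≤ c i) ∧
      ((Q - B).PosSemidef → ∀ i, c i ≤ 1) := by
  obtain ⟨S, hS1, hS2⟩ : ∃ S : Matrix ι ι ℂ, Sᴴ = S ∧ S * S = Q := exists_sqrt hQ
  have hdet : S.det * S.det = Q.det := by rw [← det_mul, hS2]
  have hSu : IsUnit S.det := by
    rw [isUnit_iff_ne_zero]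
    intro h0
    rw [h0, mul_zero] at hdet
    exact hQ.det_pos.ne hdet
  have e1 : S * S⁻¹ = 1 := mul_nonsing_inv _ hSu
  have e2 : S⁻¹ * S = 1 := nonsing_inv_mul _ hSu
  have hSi : (S⁻¹)ᴴ = S⁻¹ := by rw [conjTranspose_nonsing_inv, hS1]
  set C := S⁻¹ * B * S⁻¹ with hCd
  have hC : C.IsHermitian := by
    unfold IsHermitian
    rw [hCd, conjTranspose_mul, conjTranspose_mul, hSi, hB.eq, Matrix.mul_assoc]
  refine ⟨hC.eigenvalues, ?_, ?_, ?_, ?_⟩
  · intro t
    rw [← det_one_add hC t, ← hdet]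
    have h1 : Q + (t : ℂ) • B = S * (1 + (t : ℂ) • C) * S := by
      rw [mul_add, mul_one, add_mul, hS2, Matrix.mul_smul, Matrix.smul_mul, hCd]
      congr 2
      calc B = (S * S⁻¹) * B * (S⁻¹ * S) := by rw [e1, e2, one_mul, mul_one]
        _ = _ := by simp only [Matrix.mul_assoc]
    rw [h1, det_mul, det_mul]
    ring
  · rw [← trace_eig hC, hCd]
    have h1 : Q⁻¹ = S⁻¹ * S⁻¹ := by
      rw [← hS2, Matrix.mul_inv_rev]
    rw [h1, Matrix.mul_assoc, Matrix.trace_mul_comm, Matrix.mul_assoc]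
  · intro hBp
    have h1 : C.PosSemidef := by
      have := hBp.mul_mul_conjTranspose_same (S⁻¹)
      rwa [hSi] at this
    exact h1.eigenvalues_nonneg
  · intro hd i
    have h1 : (1 - C).PosSemidef := by
      have := hd.mul_mul_conjTranspose_same (S⁻¹)
      rw [hSi] at this
      have h2 : S⁻¹ * (Q - B) * S⁻¹ = 1 - C := by
        rw [mul_sub, sub_mul, hCd]
        congr 1
        rw [← hS2]
        calc S⁻¹ * (S * S) * S⁻¹ = (S⁻¹ * S) * (S * S⁻¹) := by simp only [Matrix.mul_assoc]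
          _ = 1 := by rw [e1, e2, one_mul]
      rwa [h2] at this
    set v : ι → ℂ := WithLp.ofLp (hC.eigenvectorBasis i) with hv
    have h3 : C *ᵥ v = (hC.eigenvalues i : ℂ) • v := hC.mulVec_eigenvectorBasis i
    have h4 : star v ⬝ᵥ v = 1 := by
      have h5 : inner ℂ (hC.eigenvectorBasis i) (hC.eigenvectorBasis i) = (1 : ℂ) := by
        rw [inner_self_eq_norm_sq_to_K, hC.eigenvectorBasis.orthonormal.1 i]
        simp
      rw [EuclideanSpace.inner_eq_star_dotProduct] at h5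
      rw [dotProduct_comm]
      exact h5
    have h5 := form_nonneg h1 v
    unfold form at h5
    rw [sub_mulVec, one_mulVec, h3, dotProduct_sub, dotProduct_smul, h4] at h5
    simp at h5
    linarith

end Pool.Agent.U161.AM
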