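import Mathlib
import Pool.Agent.U161.AM.Det

/-!
# Gramians of geometric sequences and the choice of the time shifts
-/

set_option autoImplicit false

namespace Pool.Agent.U161.AM

open Matrix Finset Filter Topology
open scoped ComplexConjugate ComplexOrder
open Pool.Agent.W963.GE (pick ne_of x_ne pick_herm pick_det_ne)

variable {ι : Type*} [Fintype ι] [DecidableEq ι]

/-- the vectors of a geometric sequence -/
noncomputable def Y (x β : ι → ℂ) (k : ℤ) : ι → ℂ := fun i => x i ^ k * β i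

/-- the Gramian of the vectors `Y x β s` with `s < k` -/
noncomputable def G (x β : ι → ℂ) (k : ℤ) : Matrix ι ι ℂ :=
  Matrix.of fun i j => Y x β k i * pick x i j * conj (Y x β k j)

lemma G_eq (x β : ι → ℂ) (k : ℤ) :
    G x β k = diagonal (Y x β k) * pick x * (diagonal (Y x β k))ᴴ := by
  ext i j
  rw [diagonal_conjTranspose, mul_diagonal, diagonal_mul]
  rfl

lemma G_succ (x β : ι → ℂ) (hx : ∀ i, 1 < ‖x i‖) (k : ℤ) :
    G x β (k + 1) = G x β k + vecMulVec (Y x β k) (star (Y x β k)) := by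
  ext i j
  have hi := x_ne x hx i
  have hj := x_ne x hx j
  have h := ne_of x hx i j
  rw [Matrix.add_apply, vecMulVec_apply]
  simp only [G, of_apply, Y, Pi.star_apply, RCLike.star_def, map_mul, map_zpow₀, pick]
  rw [zpow_add_one₀ hi, zpow_add_one₀ (by simpa using hj)]
  field_simp
  ring

lemma form_add_mat (A B : Matrix ι ι ℂ) (z : ι → ℂ) : form (A + B) z = form A z + form B z := by
  unfold form
  rw [add_mulVec, dotProduct_add, Complex.add_re]

lemma form_smul_mat (t : ℝ) (A : Matrix ι ι ℂ) (z : ι → ℂ) :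
    form ((t : ℂ) • A) z = t * form A z := by
  unfold form
  rw [smul_mulVec, dotProduct_smul]
  simp

lemma form_sum_mat {A : Type*} (s : Finset A) (B : A → Matrix ι ι ℂ) (z : ι → ℂ) :
    form (∑ a ∈ s, B a) z = ∑ a ∈ s, form (B a) z := by
  classical
  induction s using Finset.induction_on with
  | empty => simp [form]
  | insert a s ha ih => rw [Finset.sum_insert ha, form_add_mat, ih, Finset.sum_insert ha]

lemma form_vec (u z : ι → ℂ) : form (vecMulVec u (star u)) z = ‖star z ⬝ᵥ u‖ ^ 2 := by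
  have h := form_upd 0 u z
  unfold upd at h
  rw [zero_add] at h
  have h1 := form_smul_mat 4 (vecMulVec u (star u)) z
  have h2 : form (0 : Matrix ι ι ℂ) z = 0 := by simp [form]
  push_cast at h1
  rw [h1, h2] at h
  linarith

lemma form_G_succ (x β : ι → ℂ) (hx : ∀ i, 1 < ‖x i‖) (k : ℤ) (z : ι → ℂ) :
    form (G x β (k + 1)) z = form (G x β k) z + ‖star z ⬝ᵥ Y x β k‖ ^ 2 := by
  rw [G_succ x β hx, form_add_mat, form_vec]

lemma form_G_mono (x β : ι → ℂ) (hx : ∀ i, 1 < ‖x i‖) (z : ι → ℂ) :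
    Monotone fun k : ℤ => form (G x β k) z := by
  refine monotone_int_of_le_succ fun k => ?_
  show form (G x β k) z ≤ form (G x β (k + 1)) z
  rw [form_G_succ x β hx]
  have : 0 ≤ ‖star z ⬝ᵥ Y x β k‖ ^ 2 := by positivity
  linarith

lemma form_G_tendsto (x β : ι → ℂ) (hx : ∀ i, 1 < ‖x i‖) (z : ι → ℂ) :
    Tendsto (fun n : ℕ => form (G x β (-(n : ℤ))) z) atTop (𝓝 0) := by
  have h1 : ∀ n : ℕ, form (G x β (-(n : ℤ))) z =
      (∑ i, ∑ j, (conj (z i) * (β i * pick x i j * conj (β j)) * z j) *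
        ((x i * conj (x j))⁻¹) ^ n).re := by
    intro n
    unfold form
    congr 1
    simp only [dotProduct, mulVec, Pi.star_apply, RCLike.star_def, Finset.mul_sum]
    refine Finset.sum_congr rfl fun i _ => Finset.sum_congr rfl fun j _ => ?_
    simp only [G, of_apply, Y, map_mul, map_zpow₀, _root_.zpow_neg, _root_.zpow_natCast, map_inv₀, map_pow,
      mul_inv, mul_pow, inv_pow]
    ring
  simp_rw [h1]
  have h2 : Tendsto (fun n : ℕ => ∑ i, ∑ j, (conj (z i) * (β i * pick x i j * conj (β j)) * z j) *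
        ((x i * conj (x j))⁻¹) ^ n) atTop (𝓝 (∑ i : ι, ∑ j : ι, 0)) := by
    refine tendsto_finset_sum _ fun i _ => tendsto_finset_sum _ fun j _ => ?_
    have h3 : ‖(x i * conj (x j))⁻¹‖ < 1 := by
      rw [norm_inv, norm_mul, RCLike.norm_conj]
      apply inv_lt_one_of_one_lt₀
      exact one_lt_mul_of_lt_of_le (hx i) (hx j).le
    have h4 := (tendsto_pow_atTop_nhds_zero_of_norm_lt_one h3).const_mul
      (conj (z i) * (β i * pick x i j * conj (β j)) * z j)
    rwa [mul_zero] at h4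
  have h3 : (∑ _i : ι, ∑ _j : ι, (0 : ℂ)) = 0 := by simp
  rw [h3] at h2
  have h4 := (Complex.continuous_re.tendsto 0).comp h2
  exact h4

lemma G_herm (x β : ι → ℂ) (k : ℤ) : (G x β k)ᴴ = G x β k := by
  rw [G_eq, conjTranspose_mul, conjTranspose_mul, conjTranspose_conjTranspose, pick_herm,
    Matrix.mul_assoc]

lemma G_nonneg (x β : ι → ℂ) (hx : ∀ i, 1 < ‖x i‖) (k : ℤ) (z : ι → ℂ) :
    0 ≤ form (G x β k) z := by
  refine le_of_tendsto (form_G_tendsto x β hx z) ?_
  filter_upwards [eventually_ge_atTop k.natAbs] with n hn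
  exact form_G_mono x β hx z (by omega)

lemma G_posDef (x β : ι → ℂ) (hinj : Function.Injective x) (hx : ∀ i, 1 < ‖x i‖)
    (hβ : ∀ i, β i ≠ 0) (k : ℤ) : (G x β k).PosDef := by
  have hps : (G x β k).PosSemidef := by
    refine PosSemidef.of_dotProduct_mulVec_nonneg (G_herm x β k) fun z => ?_
    rw [form_im (G_herm x β k)]
    exact_mod_cast G_nonneg x β hx k z
  rw [hps.posDef_iff_det_ne_zero, G_eq, det_mul, det_mul, det_conjTranspose, det_diagonal]
  have h1 : ∏ i, Y x β k i ≠ 0 :=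
    Finset.prod_ne_zero_iff.2 fun i _ => mul_ne_zero (zpow_ne_zero _ (x_ne x hx i)) (hβ i)
  exact mul_ne_zero (mul_ne_zero h1 (pick_det_ne x hinj hx)) (star_ne_zero.2 h1)

/-- the logarithm of the determinant -/
noncomputable def ld (Q : Matrix ι ι ℂ) : ℝ := Real.log Q.det.re

lemma det_re {Q : Matrix ι ι ℂ} (hQ : Q.PosDef) : Q.det = ((Q.det.re : ℝ) : ℂ) ∧ 0 < Q.det.re := by
  have h := hQ.det_pos
  have h1 := Complex.pos_iff.1 h
  refine ⟨Complex.ext rfl ?_, h1.1⟩
  rw [Complex.ofReal_im]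
  exact h1.2.symm

lemma ld_mono {Q B : Matrix ι ι ℂ} (hQ : Q.PosDef) (hB : B.PosSemidef) : ld Q ≤ ld (Q + B) := by
  obtain ⟨c, h1, -, h3, -⟩ := spec hQ hB.isHermitian
  have h4 := h1 1
  simp only [Complex.ofReal_one, one_smul, one_mul] at h4
  obtain ⟨e1, e2⟩ := det_re hQ
  unfold ld
  apply Real.log_le_log e2
  rw [h4, e1, ← Complex.ofReal_mul, Complex.ofReal_re, Complex.ofReal_re]
  have h5 : 1 ≤ ∏ i, (1 + c i) := by
    have := Finset.prod_le_prod (s := (Finset.univ : Finset ι)) (f := fun _ => (1 : ℝ))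
      (g := fun i => 1 + c i) (fun _ _ => zero_le_one) (fun i _ => by linarith [h3 hB i])
    simpa using this
  nlinarith

/-- the trace inequality -/
lemma trace_ge {Q B : Matrix ι ι ℂ} (hQ : Q.PosDef) (hB : B.PosSemidef)
    (hd : (Q - B).PosDef) :
    1 - Real.exp (ld (Q - B) - ld Q) ≤ (Q⁻¹ * B).trace.re := by
  obtain ⟨c, h1, h2, h3, h4⟩ := spec hQ hB.isHermitian
  have h5 := h1 (-1)
  have e0 : Q + ((-1 : ℝ) : ℂ) • B = Q - B := by
    push_cast
    rw [neg_one_smul, sub_eq_add_neg]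
  rw [e0] at h5
  obtain ⟨e1, e2⟩ := det_re hQ
  obtain ⟨f1, f2⟩ := det_re hd
  have h6 : (Q - B).det.re = Q.det.re * ∏ i, (1 - c i) := by
    have h7 : ((Q - B).det.re : ℂ) = ((Q.det.re * ∏ i, (1 - c i) : ℝ) : ℂ) := by
      rw [← f1, h5]
      nth_rewrite 1 [e1]
      rw [← Complex.ofReal_mul]
      congr 2
      refine Finset.prod_congr rfl fun i _ => ?_
      ring
    exact_mod_cast h7
  have h7 : Real.exp (ld (Q - B) - ld Q) = ∏ i, (1 - c i) := by
    unfold ld
    rw [Real.exp_sub, Real.exp_log f2, Real.exp_log e2, h6]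
    field_simp
  rw [h7, h2, Complex.ofReal_re]
  have h8 : ∀ s : Finset ι, 1 - ∑ i ∈ s, c i ≤ ∏ i ∈ s, (1 - c i) ∧ 0 ≤ ∏ i ∈ s, (1 - c i) ∧
      ∏ i ∈ s, (1 - c i) ≤ 1 := by
    intro s
    induction s using Finset.induction_on with
    | empty => simp
    | insert a s ha ih =>
      obtain ⟨i1, i2, i3⟩ := ih
      rw [Finset.sum_insert ha, Finset.prod_insert ha]
      have a0 := h3 hB a
      have a1 := h4 hd.posSemidef a
      refine ⟨?_, mul_nonneg (by linarith) i2, ?_⟩
      · nlinarith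
      · nlinarith
  linarith [(h8 univ).1]

lemma det_rank_one {Q : Matrix ι ι ℂ} (hQ : Q.PosDef) (w : ι → ℂ) :
    (Q - vecMulVec w (star w)).det = Q.det * ((1 - form Q⁻¹ w : ℝ) : ℂ) := by
  have hu : IsUnit Q.det := (Matrix.isUnit_iff_isUnit_det Q).1 hQ.isUnit
  have h1 : Q - vecMulVec w (star w) =
      Q + replicateCol Unit (-w) * replicateRow Unit (star w) := by
    rw [sub_eq_add_neg]
    congr 1
    ext i j
    simp [vecMulVec_apply, mul_apply]
  rw [h1, det_add_replicateCol_mul_replicateRow hu]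
  congr 1
  rw [Matrix.det_unique (n := Unit), Matrix.add_apply, one_apply_eq, Matrix.mul_assoc]
  have h2 : (replicateRow Unit (star w) * (Q⁻¹ * replicateCol Unit (-w))) default default =
      -(star w ⬝ᵥ (Q⁻¹ *ᵥ w)) := by
    rw [← dotProduct_neg, ← mulVec_neg]
    simp [mul_apply, dotProduct, mulVec]
  rw [h2, form_im hQ.inv.isHermitian]
  push_cast
  ring

section shifts

variable {A : Type*} [Fintype A] [DecidableEq A] [Nonempty A]

/-- the sum of the Gramians -/
noncomputable def QS (x : ι → ℂ) (β : A → ι → ℂ) (τ : A → ℤ) : Matrix ι ι ℂ :=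
  ∑ a, G x (β a) (τ a)

lemma QS_posDef (x : ι → ℂ) (β : A → ι → ℂ) (hinj : Function.Injective x)
    (hx : ∀ i, 1 < ‖x i‖) (hβ : ∀ a i, β a i ≠ 0) (τ : A → ℤ) : (QS x β τ).PosDef :=
  posDef_sum Finset.univ_nonempty fun a _ => G_posDef x (β a) hinj hx (hβ a) (τ a)

lemma QS_update (x : ι → ℂ) (β : A → ι → ℂ) (hx : ∀ i, 1 < ‖x i‖) (τ : A → ℤ) (a : A) :
    QS x β (Function.update τ a (τ a - 1)) =
      QS x β τ - vecMulVec (Y x (β a) (τ a - 1)) (star (Y x (β a) (τ a - 1))) := by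
  unfold QS
  rw [← Finset.add_sum_erase _ _ (Finset.mem_univ a), ← Finset.add_sum_erase univ
    (fun a => G x (β a) (τ a)) (Finset.mem_univ a)]
  have h1 : ∑ b ∈ univ.erase a, G x (β b) (Function.update τ a (τ a - 1) b) =
      ∑ b ∈ univ.erase a, G x (β b) (τ b) := by
    refine Finset.sum_congr rfl fun b hb => ?_
    rw [Function.update_of_ne (Finset.ne_of_mem_erase hb)]
  rw [h1, Function.update_self]
  have h2 := G_succ x (β a) hx (τ a - 1)
  rw [sub_add_cancel] at h2
  rw [h2]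
  abel

lemma QS_sub_one (x : ι → ℂ) (β : A → ι → ℂ) (hx : ∀ i, 1 < ‖x i‖) (τ : A → ℤ) :
    QS x β (fun a => τ a - 1) =
      QS x β τ - ∑ a, vecMulVec (Y x (β a) (τ a - 1)) (star (Y x (β a) (τ a - 1))) := by
  unfold QS
  rw [← Finset.sum_sub_distrib]
  refine Finset.sum_congr rfl fun a _ => ?_
  have h2 := G_succ x (β a) hx (τ a - 1)
  rw [sub_add_cancel] at h2
  rw [h2]
  abel

lemma det_G_zpow (x β : ι → ℂ) (hx : ∀ i, 1 < ‖x i‖) (k : ℤ) :
    (G x β k).det = ((Real.exp (2 * (∑ i, Real.log ‖x i‖) * k) : ℝ) : ℂ) * (G x β 0).det := by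
  have h0 : ∀ i, (0 : ℝ) < ‖x i‖ := fun i => zero_lt_one.trans (hx i)
  rw [G_eq, G_eq, det_mul, det_mul, det_mul, det_mul, det_conjTranspose, det_conjTranspose,
    det_diagonal, det_diagonal]
  have h1 : ∏ i, Y x β k i = (∏ i, x i ^ k) * ∏ i, Y x β 0 i := by
    rw [← Finset.prod_mul_distrib]
    refine Finset.prod_congr rfl fun i _ => ?_
    simp [Y]
  have h2 : (∏ i, x i ^ k) * star (∏ i, x i ^ k) =
      ((Real.exp (2 * (∑ i, Real.log ‖x i‖) * k) : ℝ) : ℂ) := by
    rw [RCLike.star_def, Complex.mul_conj, Complex.normSq_eq_norm_sq, norm_prod]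
    congr 1
    rw [← Finset.prod_pow]
    have h3 : 2 * (∑ i, Real.log ‖x i‖) * k = ∑ i, Real.log ‖x i‖ * (2 * k) := by
      rw [← Finset.sum_mul]; ring
    rw [h3, Real.exp_sum]
    refine Finset.prod_congr rfl fun i _ => ?_
    rw [norm_zpow, ← Real.rpow_def_of_pos (h0 i), ← _root_.zpow_natCast, ← _root_.zpow_mul]
    rw [← Real.rpow_intCast]
    congr 1
    push_cast
    ring
  rw [h1, star_mul', ← h2]
  ring

lemma ld_G (x β : ι → ℂ) (hinj : Function.Injective x) (hx : ∀ i, 1 < ‖x i‖)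
    (hβ : ∀ i, β i ≠ 0) (k : ℤ) :
    ld (G x β k) = 2 * (∑ i, Real.log ‖x i‖) * k + ld (G x β 0) := by
  obtain ⟨e1, e2⟩ := det_re (G_posDef x β hinj hx hβ 0)
  unfold ld
  rw [det_G_zpow x β hx k]
  nth_rewrite 1 [e1]
  rw [← Complex.ofReal_mul, Complex.ofReal_re, Real.log_mul (Real.exp_pos _).ne' e2.ne',
    Real.log_exp]

/-- **the choice of the shifts** -/
theorem shifts (x : ι → ℂ) (β : A → ι → ℂ) (hinj : Function.Injective x)
    (hx : ∀ i, 1 < ‖x i‖) (hβ : ∀ a i, β a i ≠ 0) (hL : 0 < ∑ i, Real.log ‖x i‖) :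
    ∃ τ : A → ℤ, (∀ a, form (QS x β τ)⁻¹ (Y x (β a) (τ a - 1)) ≤
        3 * (∑ i, Real.log ‖x i‖) / Fintype.card A) ∧
      1 - Real.exp (-(2 * ∑ i, Real.log ‖x i‖)) ≤
        ∑ a, form (QS x β τ)⁻¹ (Y x (β a) (τ a - 1)) := by
  set L := ∑ i, Real.log ‖x i‖ with hLdef
  set q : ℝ := (Fintype.card A : ℝ) with hq
  have hq0 : 0 < q := by rw [hq]; exact_mod_cast Fintype.card_pos
  have hQ := fun τ => QS_posDef x β hinj hx hβ τ
  let Φ : (A → ℤ) → ℝ := fun τ => 2 * L / q * ∑ a, (τ a : ℝ) - ld (QS x β τ)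
  have hbdd : ∀ τ, Φ τ ≤ ∑ a, |ld (G x (β a) 0)| := by
    intro τ
    obtain ⟨a, -, ha⟩ := Finset.exists_max_image (univ : Finset A) τ Finset.univ_nonempty
    have h1 : ld (G x (β a) (τ a)) ≤ ld (QS x β τ) := by
      have h2 : QS x β τ = G x (β a) (τ a) + ∑ b ∈ univ.erase a, G x (β b) (τ b) :=
        (Finset.add_sum_erase _ _ (Finset.mem_univ a)).symm
      rw [h2]
      refine ld_mono (G_posDef x (β a) hinj hx (hβ a) _) ?_
      exact posSemidef_sum _ fun b _ => (G_posDef x (β b) hinj hx (hβ b) _).posSemidef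
    rw [ld_G x (β a) hinj hx (hβ a), ← hLdef] at h1
    have h2 : ∑ b, (τ b : ℝ) ≤ q * τ a := by
      calc ∑ b, (τ b : ℝ) ≤ ∑ _b : A, (τ a : ℝ) :=
            Finset.sum_le_sum fun b _ => by exact_mod_cast ha b (Finset.mem_univ b)
        _ = _ := by rw [Finset.sum_const, Finset.card_univ, nsmul_eq_mul]
    have h3 : 2 * L / q * ∑ a, (τ a : ℝ) ≤ 2 * L * τ a := by
      calc 2 * L / q * ∑ a, (τ a : ℝ) ≤ 2 * L / q * (q * τ a) :=
            mul_le_mul_of_nonneg_left h2 (by positivity)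
        _ = _ := by field_simp
    have h4 : -ld (G x (β a) 0) ≤ ∑ a, |ld (G x (β a) 0)| :=
      (neg_le_abs _).trans (Finset.single_le_sum (f := fun a => |ld (G x (β a) 0)|)
        (fun _ _ => abs_nonneg _) (Finset.mem_univ a))
    show 2 * L / q * ∑ a, (τ a : ℝ) - ld (QS x β τ) ≤ _
    linarith
  have hB : BddAbove (Set.range Φ) := ⟨_, by rintro _ ⟨τ, rfl⟩; exact hbdd τ⟩
  obtain ⟨_, ⟨τ, rfl⟩, hτ⟩ := exists_lt_of_lt_csSup (Set.range_nonempty Φ)
    (show sSup (Set.range Φ) - L / q < sSup (Set.range Φ) by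
      have : 0 < L / q := by positivity
      linarith)
  refine ⟨τ, fun a => ?_, ?_⟩
  · have h1 : Φ (Function.update τ a (τ a - 1)) ≤ sSup (Set.range Φ) := le_csSup hB ⟨_, rfl⟩
    set n := form (QS x β τ)⁻¹ (Y x (β a) (τ a - 1)) with hn
    have h2 : Φ (Function.update τ a (τ a - 1)) = 2 * L / q * (∑ b, (τ b : ℝ) - 1) -
        ld (QS x β (Function.update τ a (τ a - 1))) := by
      have h3 : ∑ b, ((Function.update τ a (τ a - 1) b : ℤ) : ℝ) = ∑ b, (τ b : ℝ) - 1 := by
        rw [← Finset.add_sum_erase _ _ (Finset.mem_univ a), ← Finset.add_sum_erase univ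
          (fun b => (τ b : ℝ)) (Finset.mem_univ a)]
        have h4 : ∑ b ∈ univ.erase a, ((Function.update τ a (τ a - 1) b : ℤ) : ℝ) =
            ∑ b ∈ univ.erase a, (τ b : ℝ) := by
          refine Finset.sum_congr rfl fun b hb => ?_
          rw [Function.update_of_ne (Finset.ne_of_mem_erase hb)]
        rw [h4, Function.update_self]
        push_cast
        ring
      show 2 * L / q * ∑ b, ((Function.update τ a (τ a - 1) b : ℤ) : ℝ) - _ = _
      rw [h3]
    have h5 : ld (QS x β τ) - ld (QS x β (Function.update τ a (τ a - 1))) ≤ 3 * L / q := by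
      have h6 : Φ τ = 2 * L / q * ∑ b, (τ b : ℝ) - ld (QS x β τ) := rfl
      rw [h2] at h1
      rw [h6] at hτ
      have h7 : 2 * L / q * (∑ b, (τ b : ℝ) - 1) = 2 * L / q * ∑ b, (τ b : ℝ) - 2 * L / q := by
        ring
      have h8 : 3 * L / q = 2 * L / q + L / q := by ring
      rw [h7] at h1
      rw [h8]
      linarith
    -- the determinant
    have h6 := det_rank_one (hQ τ) (Y x (β a) (τ a - 1))
    rw [← QS_update x β hx, ← hn] at h6
    obtain ⟨e1, e2⟩ := det_re (hQ τ)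
    obtain ⟨f1, f2⟩ := det_re (hQ (Function.update τ a (τ a - 1)))
    have h7 : (QS x β (Function.update τ a (τ a - 1))).det.re = (QS x β τ).det.re * (1 - n) := by
      have h8 : (((QS x β (Function.update τ a (τ a - 1))).det.re : ℝ) : ℂ) =
          (((QS x β τ).det.re * (1 - n) : ℝ) : ℂ) := by
        rw [← f1, h6]
        nth_rewrite 1 [e1]
        rw [← Complex.ofReal_mul]
      exact_mod_cast h8
    have h8 : 0 < 1 - n := by
      by_contra hcon
      push Not at hcon
      have := mul_nonpos_of_nonneg_of_nonpos e2.le hcon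
      linarith
    have h9 : ld (QS x β (Function.update τ a (τ a - 1))) = ld (QS x β τ) + Real.log (1 - n) := by
      unfold ld
      rw [h7, Real.log_mul e2.ne' h8.ne']
    have h10 : Real.log (1 - n) ≤ -n := by
      have := Real.log_le_sub_one_of_pos h8
      linarith
    linarith
  · have h1 := trace_ge (B := ∑ a, vecMulVec (Y x (β a) (τ a - 1)) (star (Y x (β a) (τ a - 1))))
      (hQ τ) (posSemidef_sum _ fun a _ => posSemidef_vecMulVec_self_star _)
      (by rw [← QS_sub_one x β hx]; exact hQ _)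
    rw [← QS_sub_one x β hx] at h1
    have h2 : ld (QS x β fun a => τ a - 1) - ld (QS x β τ) = -(2 * L) := by
      have h3 : ∀ β' : ι → ℂ, ∀ k : ℤ, G x β' (k - 1) =
          diagonal (fun i => (x i)⁻¹) * G x β' k * (diagonal fun i => (x i)⁻¹)ᴴ := by
        intro β' k
        ext i j
        rw [diagonal_conjTranspose, mul_diagonal, diagonal_mul]
        have hi := x_ne x hx i
        have hj : conj (x j) ≠ 0 := by simpa using x_ne x hx j
        simp only [G, of_apply, Y, map_mul, map_zpow₀, Pi.star_apply, RCLike.star_def, map_inv₀]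
        rw [zpow_sub_one₀ hi, zpow_sub_one₀ hj]
        ring
      have h4 : QS x β (fun a => τ a - 1) =
          diagonal (fun i => (x i)⁻¹) * QS x β τ * (diagonal fun i => (x i)⁻¹)ᴴ := by
        unfold QS
        rw [Finset.mul_sum, Finset.sum_mul]
        exact Finset.sum_congr rfl fun a _ => h3 _ _
      have h5 : (QS x β fun a => τ a - 1).det.re = Real.exp (-(2 * L)) * (QS x β τ).det.re := by
        obtain ⟨e1, e2⟩ := det_re (hQ τ)
        rw [h4, det_mul, det_mul, det_conjTranspose, det_diagonal]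
        have h6 : (∏ i, (x i)⁻¹) * (QS x β τ).det * star (∏ i, (x i)⁻¹) =
            ((Real.exp (-(2 * L)) : ℝ) : ℂ) * (QS x β τ).det := by
          have h7 : (∏ i, (x i)⁻¹) * star (∏ i, (x i)⁻¹) = ((Real.exp (-(2 * L)) : ℝ) : ℂ) := by
            rw [RCLike.star_def, Complex.mul_conj, Complex.normSq_eq_norm_sq, norm_prod]
            congr 1
            rw [← Finset.prod_pow]
            have h8 : -(2 * L) = ∑ i, Real.log ‖x i‖ * (-2) := by
              rw [← Finset.sum_mul]; ring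
            rw [h8, Real.exp_sum]
            refine Finset.prod_congr rfl fun i _ => ?_
            have h0 : (0 : ℝ) < ‖x i‖ := zero_lt_one.trans (hx i)
            rw [norm_inv, ← Real.rpow_def_of_pos h0, Real.rpow_neg h0.le, inv_pow]
            norm_num
          rw [← h7]; ring
        rw [h6]
        nth_rewrite 1 [e1]
        rw [← Complex.ofReal_mul, Complex.ofReal_re]
      unfold ld
      rw [h5, Real.log_mul (Real.exp_pos _).ne' (det_re (hQ τ)).2.ne', Real.log_exp]
      ring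
    rw [h2] at h1
    refine h1.trans (le_of_eq ?_)
    rw [Finset.mul_sum, Matrix.trace_sum, Complex.re_sum]
    refine Finset.sum_congr rfl fun a _ => ?_
    rw [mul_vecMulVec, trace_vecMulVec]
    unfold form
    rw [dotProduct_comm]

end shifts

end Pool.Agent.U161.AM
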