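import Mathlib
import Pool.Agent.U161.AM.Gram

/-!
# The number of coincidences of noisy digit sums, on average over the noise
-/

set_option autoImplicit false

namespace Pool.Agent.U161.AM

open Matrix Finset Filter Topology
open scoped ComplexConjugate ComplexOrder
open Pool.Agent.W963.GE (pick ne_of x_ne pick_herm pick_det_ne dd)

/-- resampling of one coordinate -/
lemma resample {I A : Type*} [Fintype I] [DecidableEq I] [Fintype A] (H : (I → A) → ℝ) (s : I) :
    (Fintype.card A : ℝ) * ∑ a, H a = ∑ a, ∑ b, H (Function.update a s b) := by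
  rw [← Fintype.sum_prod_type' (f := fun (a : I → A) (b : A) => H (Function.update a s b))]
  have h1 : ∑ x : (I → A) × A, H (Function.update x.1 s x.2) = ∑ x : (I → A) × A, H x.1 := by
    let e : (I → A) × A ≃ (I → A) × A :=
      { toFun := fun x => (Function.update x.1 s x.2, x.1 s)
        invFun := fun x => (Function.update x.1 s x.2, x.1 s)
        left_inv := by
          rintro ⟨a, b⟩
          simp
        right_inv := by
          rintro ⟨a, b⟩
          simp }
    exact Fintype.sum_equiv e _ _ fun x => rfl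
  rw [h1, Fintype.sum_prod_type]
  simp only [Finset.sum_const, Finset.card_univ, nsmul_eq_mul]
  rw [← Finset.mul_sum]

variable {ι : Type*} [Fintype ι] [DecidableEq ι]

/-- the shifted dual vector -/
noncomputable def Z (x z : ι → ℂ) (k : ℤ) : ι → ℂ := fun i => conj (x i) ^ k * z i

omit [DecidableEq ι] in
lemma Z_dot (x z β : ι → ℂ) (hx : ∀ i, x i ≠ 0) (k s : ℤ) :
    star (Z x z k) ⬝ᵥ Y x β s = star z ⬝ᵥ Y x β (s + k) := by
  simp only [dotProduct, Z, Y, Pi.star_apply, RCLike.star_def, map_mul, map_zpow₀,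
    Complex.conj_conj]
  refine Finset.sum_congr rfl fun i _ => ?_
  rw [zpow_add₀ (hx i)]
  ring

omit [DecidableEq ι] in
lemma form_Z (x z β : ι → ℂ) (hx : ∀ i, x i ≠ 0) (k m : ℤ) :
    form (G x β m) (Z x z k) = form (G x β (m + k)) z := by
  unfold form
  congr 1
  simp only [dotProduct, mulVec, Pi.star_apply, RCLike.star_def, Finset.mul_sum]
  refine Finset.sum_congr rfl fun i _ => Finset.sum_congr rfl fun j _ => ?_
  have hj : conj (x j) ≠ 0 := by simpa using hx j
  simp only [G, of_apply, Y, Z, map_mul, map_zpow₀, Complex.conj_conj]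
  rw [zpow_add₀ (hx i), zpow_add₀ hj]
  ring

lemma tail (x β z : ι → ℂ) (hx : ∀ i, 1 < ‖x i‖) (T τ : ℤ) (R : ℕ) :
    form (G x β (-T)) z + ∑ s : Fin R, (if ((s : ℕ) : ℤ) - T < τ then
      ‖star z ⬝ᵥ Y x β (((s : ℕ) : ℤ) - T)‖ ^ 2 else 0) ≤
      form (G x β (max (-T) (min ((R : ℤ) - T) τ))) z := by
  induction R with
  | zero =>
    simp only [univ_eq_empty, sum_empty, add_zero, Nat.cast_zero, zero_sub]
    exact form_G_mono x β hx z (le_max_left _ _)
  | succ R ih =>
    rw [Fin.sum_univ_castSucc]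
    simp only [Fin.val_castSucc, Fin.val_last]
    by_cases h : (R : ℤ) - T < τ
    · rw [if_pos h, ← add_assoc]
      have h1 : max (-T) (min ((R : ℤ) - T) τ) = (R : ℤ) - T := by
        rw [min_eq_left h.le, max_eq_right (by omega)]
      have h2 : max (-T) (min (((R + 1 : ℕ) : ℤ) - T) τ) = (R : ℤ) - T + 1 := by
        push_cast
        rw [min_eq_left (by omega), max_eq_right (by omega)]
        ring
      rw [h1] at ih
      rw [h2, form_G_succ x β hx]
      linarith
    · rw [if_neg h, add_zero]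
      have h1 : max (-T) (min ((R : ℤ) - T) τ) = max (-T) τ := by
        rw [min_eq_right (by omega)]
      have h2 : max (-T) (min (((R + 1 : ℕ) : ℤ) - T) τ) = max (-T) τ := by
        push_cast
        rw [min_eq_right (by omega)]
      rw [h2, ← h1]
      exact ih

lemma tail2 (x β z : ι → ℂ) (hx : ∀ i, 1 < ‖x i‖) (T τ B : ℤ) (hB : 0 ≤ B)
    (hT : -B - T ≤ τ) (R : ℕ) :
    form (G x β (-B - T)) z + ∑ s : Fin R, (if ((s : ℕ) : ℤ) - T < τ then
      ‖star z ⬝ᵥ Y x β (((s : ℕ) : ℤ) - T)‖ ^ 2 else 0) ≤ form (G x β τ) z := by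
  by_cases h : -T ≤ τ
  · have h1 := tail x β z hx T τ R
    have h2 : form (G x β (-B - T)) z ≤ form (G x β (-T)) z :=
      form_G_mono x β hx z (by omega)
    have h3 : form (G x β (max (-T) (min ((R : ℤ) - T) τ))) z ≤ form (G x β τ) z :=
      form_G_mono x β hx z (max_le h (min_le_right _ _))
    linarith
  · have h1 : ∑ s : Fin R, (if ((s : ℕ) : ℤ) - T < τ then
        ‖star z ⬝ᵥ Y x β (((s : ℕ) : ℤ) - T)‖ ^ 2 else 0) = 0 := by
      refine Finset.sum_eq_zero fun s _ => ?_
      rw [if_neg]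
      omega
    rw [h1, add_zero]
    exact form_G_mono x β hx z hT

/-- the gain -/
noncomputable def gain (L : ℝ) : ℝ := 1 / 17 * ((1 - Real.exp (-(2 * L))) / (4 * (1 + 3 * L)))

/-- the set of coincidences -/
def Col {ι : Type*} {R : ℕ} (u : Fin R → ι → ℂ) : Set (Fin R → Bool × Bool) :=
  {f | ∑ i, ((dd (f i) : ℝ) : ℂ) • u i = 0}

theorem avg {A : Type*} [Fintype A] [DecidableEq A] [Nonempty A] (x : ι → ℂ) (β : A → ι → ℂ)
    (hinj : Function.Injective x) (hx : ∀ i, 1 < ‖x i‖) (hβ : ∀ a i, β a i ≠ 0)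
    (hL : 0 < ∑ i, Real.log ‖x i‖) (R : ℕ) :
    ∑ a : Fin R → A, Real.log ((Nat.card (Col fun r : Fin R =>
      Y x (β (a r)) ((r : ℕ) : ℤ)) : ℝ) / 4 ^ R) ≤
      -((Fintype.card A : ℝ) ^ R * (R * gain (∑ i, Real.log ‖x i‖))) := by
  obtain ⟨τ, h1, h2⟩ := shifts x β hinj hx hβ hL
  set L := ∑ i, Real.log ‖x i‖ with hLdef
  set q : ℝ := (Fintype.card A : ℝ) with hq
  have hq0 : 0 < q := by rw [hq]; exact_mod_cast Fintype.card_pos
  have hx0 := x_ne x hx
  have hQ := QS_posDef x β hinj hx hβ τ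
  set Qs := QS x β τ with hQs
  have hQH : Qsᴴ = Qs := hQ.isHermitian
  have hu : IsUnit Qs.det := (Matrix.isUnit_iff_isUnit_det Qs).1 hQ.isUnit
  have hAH : (Qs⁻¹)ᴴ = Qs⁻¹ := hQ.inv.isHermitian
  let W : A → ι → ℂ := fun a => Y x (β a) (τ a - 1)
  let m : A → ℝ := fun a => q * form Qs⁻¹ (W a)
  have hm0 : ∀ a, 0 ≤ m a := fun a => mul_nonneg hq0.le (form_nonneg hQ.inv.posSemidef _)
  have hm1 : ∀ a, m a ≤ 3 * L := by
    intro a
    have := mul_le_mul_of_nonneg_left (h1 a) hq0.le
    calc m a ≤ q * (3 * L / q) := this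
      _ = _ := by field_simp
  set t : ℝ := 1 / (4 * (1 + 3 * L)) with ht
  have ht0 : 0 < t := by positivity
  let zz : A → ι → ℂ := fun a => ((t * q : ℝ) : ℂ) • (Qs⁻¹ *ᵥ W a)
  have hz1 : ∀ a, star (zz a) ⬝ᵥ W a = ((t * m a : ℝ) : ℂ) := by
    intro a
    show star (((t * q : ℝ) : ℂ) • (Qs⁻¹ *ᵥ W a)) ⬝ᵥ W a = _
    rw [star_smul, smul_dotProduct, star_mulVec, hAH, ← dotProduct_mulVec, form_im hAH]
    simp only [RCLike.star_def, Complex.conj_ofReal, smul_eq_mul]
    rw [← Complex.ofReal_mul]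
    congr 1
    show t * q * form Qs⁻¹ (W a) = t * (q * form Qs⁻¹ (W a))
    ring
  have hz2 : ∀ a, form Qs (zz a) = t ^ 2 * q * m a := by
    intro a
    have e1 : Qs *ᵥ (zz a) = ((t * q : ℝ) : ℂ) • W a := by
      show Qs *ᵥ (((t * q : ℝ) : ℂ) • (Qs⁻¹ *ᵥ W a)) = _
      rw [mulVec_smul, mulVec_mulVec, mul_nonsing_inv _ hu, one_mulVec]
    unfold form
    rw [e1, dotProduct_smul, hz1, smul_eq_mul, ← Complex.ofReal_mul, Complex.ofReal_re]
    ring
  set B : ℤ := 2 * ∑ a, |τ a| with hB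
  have hB0 : 0 ≤ B := by positivity
  have hB1 : ∀ a b, τ a - τ b ≤ B := by
    intro a b
    have e1 : |τ a| ≤ ∑ a, |τ a| := Finset.single_le_sum (f := fun a => |τ a|)
      (fun _ _ => abs_nonneg _) (Finset.mem_univ a)
    have e2 : |τ b| ≤ ∑ a, |τ a| := Finset.single_le_sum (f := fun a => |τ a|)
      (fun _ _ => abs_nonneg _) (Finset.mem_univ b)
    have e3 := le_abs_self (τ a)
    have e4 := neg_abs_le (τ b)
    linarith
  -- the initial form
  let Q0 : Matrix ι ι ℂ := ((4 / q : ℝ) : ℂ) • ∑ b, G x (β b) (-B)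
  have hQ0 : Q0.PosDef := by
    refine PosDef.smul (posDef_sum Finset.univ_nonempty fun a _ =>
      G_posDef x (β a) hinj hx (hβ a) _) ?_
    exact_mod_cast (by positivity : 0 < 4 / q)
  have hQ0f : ∀ v, form Q0 v = 4 / q * ∑ b, form (G x (β b) (-B)) v := by
    intro v
    show form (((4 / q : ℝ) : ℂ) • ∑ b, G x (β b) (-B)) v = _
    rw [form_smul_mat, form_sum_mat]
  -- the pieces for each configuration
  let u : (Fin R → A) → Fin R → ι → ℂ := fun a r => Y x (β (a r)) ((r : ℕ) : ℤ)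
  let z : Fin R → A → ι → ℂ := fun r c => Z x (zz c) (τ c - 1 - ((r : ℕ) : ℤ))
  let key : (Fin R → A) → Fin R → ℤ := fun a r => ((r : ℕ) : ℤ) - τ (a r)
  let F : Fin R → A → Fin R → A → ℝ := fun r c s b =>
    if ((s : ℕ) : ℤ) - τ b ≤ ((r : ℕ) : ℤ) - τ c then
      ‖star (z r c) ⬝ᵥ Y x (β b) ((s : ℕ) : ℤ)‖ ^ 2 else 0
  have hF0 : ∀ r c s b, 0 ≤ F r c s b := by
    intro r c s b
    show 0 ≤ ite _ _ _
    split_ifs <;> positivity
  let S : (Fin R → A) → ℝ := fun a => ∑ r, (2 * (star (z r (a r)) ⬝ᵥ u a r).re -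
    form Q0 (z r (a r)) - 4 * ∑ s, F r (a r) s (a s))
  have hcol : ∀ a : Fin R → A, Real.log ((Nat.card (Col fun r : Fin R =>
      Y x (β (a r)) ((r : ℕ) : ℤ)) : ℝ) / 4 ^ R) ≤ -(1 / 17 * S a) := by
    intro a
    have e1 := colkey R (u a) (fun r => z r (a r)) (key a) Q0 hQ0
    have e2 : ∑ i, (2 * (star (z i (a i)) ⬝ᵥ u a i).re - form Q0 (z i (a i)) -
        4 * ∑ j ∈ univ.filter (fun j => key a j ≤ key a i), ‖star (z i (a i)) ⬝ᵥ u a j‖ ^ 2) =
        S a := by
      refine Finset.sum_congr rfl fun i _ => ?_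
      rw [Finset.sum_filter]
    rw [e2] at e1
    have hpos : 0 < (Nat.card (Col fun r : Fin R => Y x (β (a r)) ((r : ℕ) : ℤ)) : ℝ) := by
      have : Nonempty (Col fun r : Fin R => Y x (β (a r)) ((r : ℕ) : ℤ)) :=
        ⟨⟨fun _ => (true, true), by simp [Col, dd]⟩⟩
      exact_mod_cast Nat.card_pos
    rw [Real.log_le_iff_le_exp (by positivity), div_le_iff₀ (by positivity), mul_comm]
    exact e1
  -- the average of `S`
  have hS : (q ^ R) * (R * (t * (1 - Real.exp (-(2 * L))))) ≤ ∑ a, S a := by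
    have h3 : ∑ a, S a = ∑ r, ∑ a : Fin R → A, (2 * (star (z r (a r)) ⬝ᵥ u a r).re -
        form Q0 (z r (a r)) - 4 * ∑ s, F r (a r) s (a s)) := Finset.sum_comm
    rw [h3]
    have h4 : ∀ r : Fin R, q ^ R * (t * (1 - Real.exp (-(2 * L)))) ≤
        ∑ a : Fin R → A, (2 * (star (z r (a r)) ⬝ᵥ u a r).re -
          form Q0 (z r (a r)) - 4 * ∑ s, F r (a r) s (a s)) := by
      intro r
      -- the scalar products
      have e1 : ∀ a : Fin R → A, star (z r (a r)) ⬝ᵥ u a r = ((t * m (a r) : ℝ) : ℂ) := by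
        intro a
        show star (Z x (zz (a r)) (τ (a r) - 1 - ((r : ℕ) : ℤ))) ⬝ᵥ
          Y x (β (a r)) ((r : ℕ) : ℤ) = _
        rw [Z_dot x _ _ hx0, ← hz1]
        congr 2
        ring
      -- the sum over the other slots
      have e2 : ∀ c b, form (G x (β b) (-B)) (z r c) + ∑ s, F r c s b ≤
          form (G x (β b) (τ b)) (zz c) := by
        intro c b
        have e3 := tail2 x (β b) (zz c) hx (((r : ℕ) : ℤ) - τ c + 1) (τ b) B hB0
          (by have := hB1 c b; have : (0 : ℤ) ≤ ((r : ℕ) : ℤ) := by positivity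
              omega) R
        refine le_trans (le_of_eq ?_) e3
        congr 1
        · show form (G x (β b) (-B)) (Z x (zz c) (τ c - 1 - ((r : ℕ) : ℤ))) = _
          rw [form_Z x _ _ hx0]
          congr 2
          ring
        · refine Finset.sum_congr rfl fun s _ => ?_
          show (if ((s : ℕ) : ℤ) - τ b ≤ ((r : ℕ) : ℤ) - τ c then
            ‖star (Z x (zz c) (τ c - 1 - ((r : ℕ) : ℤ))) ⬝ᵥ
              Y x (β b) ((s : ℕ) : ℤ)‖ ^ 2 else 0) = _
          rw [Z_dot x _ _ hx0]
          have e4 : ((s : ℕ) : ℤ) + (τ c - 1 - ((r : ℕ) : ℤ)) =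
            ((s : ℕ) : ℤ) - (((r : ℕ) : ℤ) - τ c + 1) := by ring
          rw [e4]
          by_cases h : ((s : ℕ) : ℤ) - τ b ≤ ((r : ℕ) : ℤ) - τ c
          · rw [if_pos h, if_pos (by omega)]
          · rw [if_neg h, if_neg (by omega)]
      -- resampling
      have e5 : ∀ s, s ≠ r → ∑ a : Fin R → A, F r (a r) s (a s) =
          ∑ a : Fin R → A, (1 / q) * ∑ b, F r (a r) s b := by
        intro s hs
        have e6 := resample (fun a : Fin R → A => F r (a r) s (a s)) s
        have e7 : ∑ a : Fin R → A, ∑ b, F r (Function.update a s b r) s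
            (Function.update a s b s) = ∑ a : Fin R → A, ∑ b, F r (a r) s b := by
          refine Finset.sum_congr rfl fun a _ => Finset.sum_congr rfl fun b _ => ?_
          rw [Function.update_self, Function.update_of_ne hs.symm]
        rw [e7] at e6
        rw [← Finset.mul_sum, ← e6, ← hq]
        field_simp
      have e6 : ∑ a : Fin R → A, ∑ s, F r (a r) s (a s) ≤
          ∑ a : Fin R → A, ((t * m (a r)) ^ 2 + (1 / q) * ∑ b, ∑ s, F r (a r) s b) := by
        rw [Finset.sum_comm, ← Finset.add_sum_erase _ _ (Finset.mem_univ r),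
          Finset.sum_add_distrib]
        have e7 : ∑ a : Fin R → A, F r (a r) r (a r) = ∑ a : Fin R → A, (t * m (a r)) ^ 2 := by
          refine Finset.sum_congr rfl fun a _ => ?_
          show (if ((r : ℕ) : ℤ) - τ (a r) ≤ ((r : ℕ) : ℤ) - τ (a r) then
            ‖star (z r (a r)) ⬝ᵥ Y x (β (a r)) ((r : ℕ) : ℤ)‖ ^ 2 else 0) = _
          rw [if_pos le_rfl]
          have := e1 a
          change star (z r (a r)) ⬝ᵥ Y x (β (a r)) ((r : ℕ) : ℤ) = _ at this
          rw [this, Complex.norm_real, Real.norm_eq_abs, sq_abs]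
        rw [e7]
        have e8 : ∑ s ∈ univ.erase r, ∑ a : Fin R → A, F r (a r) s (a s) =
            ∑ s ∈ univ.erase r, ∑ a : Fin R → A, (1 / q) * ∑ b, F r (a r) s b :=
          Finset.sum_congr rfl fun s hs => e5 s (Finset.ne_of_mem_erase hs)
        rw [e8]
        have e9 : ∑ s ∈ univ.erase r, ∑ a : Fin R → A, (1 / q) * ∑ b, F r (a r) s b ≤
            ∑ s, ∑ a : Fin R → A, (1 / q) * ∑ b, F r (a r) s b :=
          Finset.sum_le_sum_of_subset_of_nonneg (Finset.erase_subset _ _) fun s _ _ =>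
            Finset.sum_nonneg fun a _ => mul_nonneg (by positivity)
              (Finset.sum_nonneg fun b _ => hF0 _ _ _ _)
        have e10 : ∑ s, ∑ a : Fin R → A, (1 / q) * ∑ b, F r (a r) s b =
            ∑ a : Fin R → A, (1 / q) * ∑ b, ∑ s, F r (a r) s b := by
          rw [Finset.sum_comm]
          refine Finset.sum_congr rfl fun a _ => ?_
          rw [← Finset.mul_sum]
          congr 1
          exact Finset.sum_comm
        rw [e10] at e9
        linarith
      have e7 : ∑ a : Fin R → A, (2 * (star (z r (a r)) ⬝ᵥ u a r).re -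
          form Q0 (z r (a r)) - 4 * ∑ s, F r (a r) s (a s)) =
          ∑ a : Fin R → A, (2 * (t * m (a r)) - 4 / q * ∑ b, form (G x (β b) (-B)) (z r (a r))) -
          4 * ∑ a : Fin R → A, ∑ s, F r (a r) s (a s) := by
        rw [Finset.mul_sum, ← Finset.sum_sub_distrib]
        refine Finset.sum_congr rfl fun a _ => ?_
        rw [e1, Complex.ofReal_re, hQ0f]
      have e8 : ∑ a : Fin R → A, t * m (a r) ≤
          ∑ a : Fin R → A, (2 * (t * m (a r)) - 4 / q * ∑ b, form (G x (β b) (-B)) (z r (a r))) -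
          4 * ∑ a : Fin R → A, ((t * m (a r)) ^ 2 + (1 / q) * ∑ b, ∑ s, F r (a r) s b) := by
        rw [Finset.mul_sum, ← Finset.sum_sub_distrib]
        refine Finset.sum_le_sum fun a _ => ?_
        have f1 : ∑ b, form (G x (β b) (-B)) (z r (a r)) + ∑ b, ∑ s, F r (a r) s b ≤
            t ^ 2 * q * m (a r) := by
          rw [← hz2, ← Finset.sum_add_distrib]
          have f2 : form Qs (zz (a r)) = ∑ b, form (G x (β b) (τ b)) (zz (a r)) := by
            rw [hQs]; unfold QS; exact form_sum_mat _ _ _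
          rw [f2]
          exact Finset.sum_le_sum fun b _ => e2 _ _
        have f3 : 4 / q * (∑ b, form (G x (β b) (-B)) (z r (a r)) +
            ∑ b, ∑ s, F r (a r) s b) ≤ 4 * t ^ 2 * m (a r) := by
          calc _ ≤ 4 / q * (t ^ 2 * q * m (a r)) := mul_le_mul_of_nonneg_left f1 (by positivity)
            _ = _ := by field_simp
        have f4 : 4 * t ^ 2 * m (a r) + 4 * (t * m (a r)) ^ 2 ≤ t * m (a r) := by
          have g1 := hm0 (a r)
          have g2 := hm1 (a r)
          have g3 : 4 * t * (1 + 3 * L) = 1 := by rw [ht]; field_simp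
          have g4 : 4 * t * (1 + m (a r)) ≤ 1 := by
            rw [← g3]
            exact mul_le_mul_of_nonneg_left (by linarith) (by positivity)
          have g5 := mul_le_mul_of_nonneg_left g4 (mul_nonneg ht0.le g1)
          linarith
        have f5 : 4 / q * (∑ b, form (G x (β b) (-B)) (z r (a r)) +
            ∑ b, ∑ s, F r (a r) s b) = 4 / q * ∑ b, form (G x (β b) (-B)) (z r (a r)) +
            4 * (1 / q * ∑ b, ∑ s, F r (a r) s b) := by ring
        rw [f5] at f3
        linarith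
      have e9 : q ^ R * (t * (1 - Real.exp (-(2 * L)))) ≤ ∑ a : Fin R → A, t * m (a r) := by
        have f1 := resample (fun a : Fin R → A => t * m (a r)) r
        simp only [Function.update_self] at f1
        rw [Finset.sum_const, Finset.card_univ, nsmul_eq_mul, Fintype.card_fun,
          Fintype.card_fin] at f1
        push_cast at f1
        rw [← hq] at f1
        have f2 : ∑ b, t * m b = q * (t * ∑ a, form Qs⁻¹ (W a)) := by
          rw [Finset.mul_sum, Finset.mul_sum]
          refine Finset.sum_congr rfl fun b _ => ?_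
          show t * (q * form Qs⁻¹ (W b)) = _
          ring
        rw [f2] at f1
        have f3 : ∑ a : Fin R → A, t * m (a r) = q ^ R * (t * ∑ a, form Qs⁻¹ (W a)) := by
          apply mul_left_cancel₀ hq0.ne'
          rw [f1]; ring
        rw [f3]
        have f4 := mul_le_mul_of_nonneg_left h2 ht0.le
        exact mul_le_mul_of_nonneg_left f4 (by positivity)
      rw [e7]
      linarith
    calc (q ^ R) * (R * (t * (1 - Real.exp (-(2 * L))))) =
        ∑ _r : Fin R, q ^ R * (t * (1 - Real.exp (-(2 * L)))) := by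
          rw [Finset.sum_const, Finset.card_univ, Fintype.card_fin, nsmul_eq_mul]; ring
      _ ≤ _ := Finset.sum_le_sum fun r _ => h4 r
  have h5 : ∑ a : Fin R → A, Real.log ((Nat.card (Col fun r : Fin R =>
      Y x (β (a r)) ((r : ℕ) : ℤ)) : ℝ) / 4 ^ R) ≤ ∑ a, -(1 / 17 * S a) :=
    Finset.sum_le_sum fun a _ => hcol a
  refine h5.trans ?_
  rw [Finset.sum_neg_distrib, ← Finset.mul_sum, neg_le_neg_iff]
  have h6 : q ^ R * (R * gain L) = 1 / 17 * (q ^ R * (R * (t * (1 - Real.exp (-(2 * L)))))) := by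
    unfold gain
    rw [ht]
    ring
  rw [h6]
  exact mul_le_mul_of_nonneg_left hS (by norm_num)

end Pool.Agent.U161.AM
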