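import Mathlib
import Pool.Agent.U161.AM.Avg
import Pool.Agent.U161.AR.Sec
import Pool.Agent.U161.AR.Fib
import Pool.Agent.W963.GE.Conj

/-!
# Noisy digit sums of an algebraic integer
-/

set_option autoImplicit false

namespace Pool.Agent.U161.AM

open Finset Polynomial
open Pool.Agent.W963.GE (dd MM outer mem_outer MM_eq MM_ge)
open Pool.Agent.U161.AR (cell sec fib)

/-- the coincidences of the noisy digit sums -/
def Co {R : ℕ} (v : Fin R → ℂ) : Set (Fin R → Bool × Bool) :=
  {f | ∑ i, ((dd (f i) : ℝ) : ℂ) * v i = 0}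

/-- passing to the conjugates -/
theorem conjugate {A : Type*} [Fintype A] {z : ℂ} (hz : IsIntegral ℤ z) (σ : A → ℂ)
    (hσ : ∀ a, σ a ≠ 0) :
    ∃ β : A → ℂ → ℂ, (∀ a w, aeval w (minpoly ℤ z) = 0 → β a w ≠ 0) ∧
      ∀ (R : ℕ) (a : Fin R → A) (w : ℂ), aeval w (minpoly ℤ z) = 0 →
        Co (fun r => z ^ (r : ℕ) * σ (a r)) ⊆ Co (fun r => w ^ (r : ℕ) * β (a r) w) := by
  classical
  have hzQ : IsIntegral ℚ z := hz.tower_top
  let E := IntermediateField.adjoin ℚ {z}
  obtain ⟨ψ, hψ⟩ := Module.exists_dual_forall_apply_ne_zero (K := E) (M := ℂ) σ hσ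
  let pb := IntermediateField.adjoin.powerBasis hzQ
  have hmin : minpoly ℚ z = (minpoly ℤ z).map (algebraMap ℤ ℚ) :=
    minpoly.isIntegrallyClosed_eq_field_fractions' ℚ hz
  have hgen : pb.gen = IntermediateField.AdjoinSimple.gen ℚ z :=
    IntermediateField.adjoin.powerBasis_gen hzQ
  have hroot : ∀ w : ℂ, aeval w (minpoly ℤ z) = 0 → aeval w (minpoly ℚ pb.gen) = 0 := by
    intro w hw
    have e1 : minpoly ℚ (IntermediateField.AdjoinSimple.gen ℚ z) = minpoly ℚ z :=
      IntermediateField.minpoly_gen ℚ z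
    have e2 : minpoly ℚ pb.gen = minpoly ℚ z := by rw [hgen]; exact e1
    rw [e2, hmin, aeval_map_algebraMap]
    exact hw
  let e : ∀ w : ℂ, aeval w (minpoly ℤ z) = 0 → (E →ₐ[ℚ] ℂ) := fun w hw =>
    pb.lift w (hroot w hw)
  have he : ∀ w hw, e w hw (IntermediateField.AdjoinSimple.gen ℚ z) = w := by
    intro w hw
    have := pb.lift_gen w (hroot w hw)
    rw [hgen] at this
    exact this
  refine ⟨fun a w => if hw : aeval w (minpoly ℤ z) = 0 then e w hw (ψ (σ a)) else 0, ?_, ?_⟩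
  · intro a w hw
    simp only [dif_pos hw]
    exact (map_ne_zero_iff _ (e w hw).toRingHom.injective).2 (hψ a)
  · intro R a w hw f hf
    have h1 : ∑ i, ((dd (f i) : ℝ) : ℂ) * (z ^ (i : ℕ) * σ (a i)) = 0 := hf
    -- the digits are rational
    obtain ⟨δ, hδ⟩ : ∃ δ : Fin R → ℚ, ∀ i, dd (f i) = (δ i : ℝ) := by
      refine ⟨fun i => (if (f i).1 then 1 else 0) - (if (f i).2 then 1 else 0), fun i => ?_⟩
      show dd (f i) = (((if (f i).1 then 1 else 0) - (if (f i).2 then 1 else 0) : ℚ) : ℝ)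
      generalize f i = p
      obtain ⟨b1, b2⟩ := p
      cases b1 <;> cases b2 <;> simp [dd]
    have h2 : ∑ i, ((δ i : E) * (IntermediateField.AdjoinSimple.gen ℚ z) ^ (i : ℕ)) • σ (a i) =
        (0 : ℂ) := by
      rw [← h1]
      refine Finset.sum_congr rfl fun i _ => ?_
      rw [hδ]
      rw [Algebra.smul_def, map_mul, map_pow]
      have e1 : (algebraMap E ℂ) (δ i : E) = ((δ i : ℝ) : ℂ) := by
        rw [map_ratCast]; push_cast; rfl
      have e2 : (algebraMap E ℂ) (IntermediateField.AdjoinSimple.gen ℚ z) = z :=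
        IntermediateField.AdjoinSimple.algebraMap_gen ℚ z
      rw [e1, e2]
      ring
    have h3 := congrArg ψ h2
    rw [map_sum, map_zero] at h3
    simp only [map_smul, smul_eq_mul] at h3
    have h4 := congrArg (e w hw) h3
    rw [map_sum, map_zero] at h4
    show ∑ i, ((dd (f i) : ℝ) : ℂ) * (w ^ (i : ℕ) * _) = 0
    refine Eq.trans (Finset.sum_congr rfl fun i _ => ?_) h4
    simp only [dif_pos hw]
    rw [map_mul, map_mul, map_pow, he w hw, hδ, map_ratCast]
    push_cast
    ring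

/-- one place with a large absolute value -/
theorem one_place {A : Type} [Fintype A] [Nonempty A] {w : ℂ} (hw : 1 ≤ Real.log ‖w‖)
    (β : A → ℂ) (hβ : ∀ a, β a ≠ 0) (R : ℕ) :
    ∑ a : Fin R → A, Real.log ((Nat.card (Co fun r : Fin R => w ^ (r : ℕ) * β (a r)) : ℝ) /
      4 ^ R) ≤ -((Fintype.card A : ℝ) ^ R * (R * (1 / 10))) := by
  classical
  have hl3 : 0 < Real.log 3 := Real.log_pos (by norm_num)
  have hl3' : Real.log 3 ≤ 1.1 := by
    rw [Real.log_le_iff_le_exp (by norm_num)]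
    have h2 : (3 : ℝ) ^ 10 < Real.exp 1.1 ^ 10 := by
      rw [← Real.exp_nat_mul]
      have e : ((10 : ℕ) : ℝ) * 1.1 = ((11 : ℕ) : ℝ) * 1 := by norm_num
      rw [e, Real.exp_nat_mul]
      calc (3 : ℝ) ^ 10 < (2.7182818283 : ℝ) ^ 11 := by norm_num
        _ ≤ _ := pow_le_pow_left₀ (by norm_num) Real.exp_one_gt_d9.le 11
    exact (lt_of_pow_lt_pow_left₀ 10 (Real.exp_pos _).le h2).le
  have hl2 : 0.6931471803 < Real.log 2 := Real.log_two_gt_d9
  have hw0 : w ≠ 0 := by
    rintro rfl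
    rw [norm_zero, Real.log_zero] at hw
    linarith
  set g := Real.log ‖w‖ with hg
  let ξ : A → ℝ := fun a => Real.log ‖β a‖
  let N : (Fin R → A) → ℕ := fun a =>
    (Set.range fun r : Fin R => cell (Real.log 3) g r (ξ (a r))).ncard
  have h1 := sec hl3 (show g ≠ 0 by intro h; rw [h] at hw; linarith) A ξ R
  have hcol : ∀ a : Fin R → A, Real.log ((Nat.card (Co fun r : Fin R =>
      w ^ (r : ℕ) * β (a r)) : ℝ) / 4 ^ R) ≤ -(Real.log 2 / 2 * (N a : ℝ)) := by
    intro a
    set v : Fin R → ℂ := fun r => w ^ (r : ℕ) * β (a r) with hv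
    have hv0 : ∀ r, v r ≠ 0 := fun r => mul_ne_zero (pow_ne_zero _ hw0) (hβ _)
    have hcell : (fun r : Fin R => ⌊Real.log ‖v r‖ / Real.log 3⌋) =
        fun r : Fin R => cell (Real.log 3) g r (ξ (a r)) := by
      funext r
      unfold cell
      congr 2
      rw [hv]
      simp only []
      rw [norm_mul, norm_pow, Real.log_mul (pow_ne_zero _ (norm_ne_zero_iff.2 hw0))
        (norm_ne_zero_iff.2 (hβ _)), Real.log_pow]
    set m := (N a + 1) / 2 with hm
    have h2 : ∀ y : ℂ, 2 ^ m * Nat.card {x : Fin R → Bool // ∑ r, (if x r then v r else 0) = y} ≤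
        2 ^ R := by
      intro y
      have := fib R v hv0 y
      rw [hcell] at this
      exact this
    have h3 : 2 ^ m * Nat.card (Co v) ≤ 4 ^ R := by
      have h4 : Nat.card (Co v) = ∑ x' : Fin R → Bool, Nat.card {x : Fin R → Bool //
          ∑ r, (if x r then v r else 0) = ∑ r, (if x' r then v r else 0)} := by
        rw [← Nat.card_sigma]
        refine Nat.card_congr ?_
        refine
          { toFun := fun f => ⟨fun i => (f.1 i).2, ⟨fun i => (f.1 i).1, ?_⟩⟩
            invFun := fun p => ⟨fun i => (p.2.1 i, p.1 i), ?_⟩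
            left_inv := fun f => rfl
            right_inv := fun p => rfl }
        · have h5 : ∑ i, ((dd (f.1 i) : ℝ) : ℂ) * v i = 0 := f.2
          rw [← sub_eq_zero, ← Finset.sum_sub_distrib]
          refine Eq.trans (Finset.sum_congr rfl fun i _ => ?_) h5
          beta_reduce
          generalize f.1 i = p
          obtain ⟨b1, b2⟩ := p
          cases b1 <;> cases b2 <;> simp [dd]
        · show ∑ i, ((dd (p.2.1 i, p.1 i) : ℝ) : ℂ) * v i = 0
          have h5 := p.2.2
          rw [← sub_eq_zero, ← Finset.sum_sub_distrib] at h5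
          refine Eq.trans (Finset.sum_congr rfl fun i _ => ?_) h5
          beta_reduce
          generalize p.2.1 i = b1
          generalize p.1 i = b2
          cases b1 <;> cases b2 <;> simp [dd]
      rw [h4, Finset.mul_sum]
      calc ∑ x' : Fin R → Bool, 2 ^ m * Nat.card {x : Fin R → Bool //
          ∑ r, (if x r then v r else 0) = ∑ r, (if x' r then v r else 0)}
          ≤ ∑ _x' : Fin R → Bool, 2 ^ R := Finset.sum_le_sum fun x' _ => h2 _
        _ = 4 ^ R := by
          rw [Finset.sum_const, Finset.card_univ, Fintype.card_fun, Fintype.card_bool,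
            Fintype.card_fin, smul_eq_mul, ← mul_pow]
          norm_num
    have hpos : 0 < (Nat.card (Co v) : ℝ) := by
      have : Nonempty (Co v) := ⟨⟨fun _ => (true, true), by simp [Co, dd]⟩⟩
      exact_mod_cast Nat.card_pos
    have h5 : (Nat.card (Co v) : ℝ) / 4 ^ R ≤ 1 / 2 ^ m := by
      rw [div_le_div_iff₀ (by positivity) (by positivity), one_mul, mul_comm]
      exact_mod_cast h3
    have h6 := Real.log_le_log (by positivity) h5
    rw [Real.log_div one_ne_zero (by positivity), Real.log_one, zero_sub, Real.log_pow] at h6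
    refine h6.trans ?_
    rw [neg_le_neg_iff]
    have h7 : (N a : ℝ) ≤ 2 * m := by
      have : N a ≤ 2 * ((N a + 1) / 2) := by omega
      exact_mod_cast this
    nlinarith
  refine (Finset.sum_le_sum fun a _ => hcol a).trans ?_
  rw [Finset.sum_neg_distrib, neg_le_neg_iff, ← Finset.mul_sum]
  have h2 : (R : ℝ) / 3.1 * (Fintype.card A : ℝ) ^ R ≤ ∑ a : Fin R → A, (N a : ℝ) := by
    refine le_trans ?_ h1
    apply mul_le_mul_of_nonneg_right _ (by positivity)
    apply div_le_div_of_nonneg_left (by positivity) (by positivity)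
    have h3 : Real.log 3 / |g| ≤ Real.log 3 := by
      apply div_le_self hl3.le
      exact hw.trans (le_abs_self _)
    linarith
  have h3 : (0 : ℝ) ≤ R * (Fintype.card A : ℝ) ^ R := by positivity
  have h4 : Real.log 2 / 2 * ((R : ℝ) / 3.1 * (Fintype.card A : ℝ) ^ R) ≤
      Real.log 2 / 2 * ∑ a : Fin R → A, (N a : ℝ) :=
    mul_le_mul_of_nonneg_left h2 (by positivity)
  refine le_trans ?_ h4
  have h5 : (Fintype.card A : ℝ) ^ R * (R * (1 / 10)) = (R * (Fintype.card A : ℝ) ^ R) * (1 / 10) := by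
    ring
  have h6 : Real.log 2 / 2 * ((R : ℝ) / 3.1 * (Fintype.card A : ℝ) ^ R) =
      (R * (Fintype.card A : ℝ) ^ R) * (Real.log 2 / 6.2) := by ring
  rw [h5, h6]
  apply mul_le_mul_of_nonneg_left _ h3
  rw [le_div_iff₀ (by norm_num)]
  linarith

/-- a subset with a sum between `1` and `2` -/
lemma exists_sub {S : Type*} [DecidableEq S] (s : Finset S) (f : S → ℝ) (hf : ∀ a ∈ s, 0 ≤ f a ∧ f a ≤ 1) :
    1 ≤ ∑ a ∈ s, f a → ∃ J ⊆ s, 1 ≤ ∑ a ∈ J, f a ∧ ∑ a ∈ J, f a ≤ 2 := by
  induction s using Finset.induction_on with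
  | empty => intro h; simp at h; linarith
  | insert a s ha ih =>
    intro h
    by_cases h1 : 1 ≤ ∑ b ∈ s, f b
    · obtain ⟨J, hJ, h2⟩ := ih (fun b hb => hf b (Finset.mem_insert_of_mem hb)) h1
      exact ⟨J, hJ.trans (Finset.subset_insert _ _), h2⟩
    · refine ⟨insert a s, Finset.Subset.refl _, h, ?_⟩
      rw [Finset.sum_insert ha]
      have := (hf a (Finset.mem_insert_self a s)).2
      push Not at h1
      linarith

lemma gain_ge (L : ℝ) (h0 : 0 < L) (h2 : L ≤ 2) : min 1 L / 714 ≤ gain L := by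
  unfold gain
  have h1 : 2 * L / (1 + 2 * L) ≤ 1 - Real.exp (-(2 * L)) := by
    have h3 : 1 + 2 * L ≤ Real.exp (2 * L) := by
      have := Real.add_one_le_exp (2 * L)
      linarith
    have h4 : Real.exp (-(2 * L)) ≤ 1 / (1 + 2 * L) := by
      rw [Real.exp_neg, inv_eq_one_div]
      exact one_div_le_one_div_of_le (by positivity) h3
    have h5 : 2 * L / (1 + 2 * L) = 1 - 1 / (1 + 2 * L) := by field_simp; ring
    linarith
  have h3 : 1 / 17 * (2 * L / (1 + 2 * L) / (4 * (1 + 3 * L))) ≤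
      1 / 17 * ((1 - Real.exp (-(2 * L))) / (4 * (1 + 3 * L))) := by
    apply mul_le_mul_of_nonneg_left _ (by norm_num)
    exact div_le_div_of_nonneg_right h1 (by positivity)
  refine le_trans ?_ h3
  have h4 : 1 / 17 * (2 * L / (1 + 2 * L) / (4 * (1 + 3 * L))) =
      L / (34 * ((1 + 2 * L) * (1 + 3 * L))) := by field_simp; ring
  rw [h4]
  rcases le_total L 1 with h | h
  · rw [min_eq_right h]
    apply div_le_div_of_nonneg_left h0.le (by positivity)
    nlinarith
  · rw [min_eq_left h, div_le_div_iff₀ (by norm_num) (by positivity)]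
    nlinarith

/-- **noisy digit sums** -/
theorem line {A : Type} [Fintype A] [DecidableEq A] [Nonempty A] {z : ℂ} (hz : IsIntegral ℤ z)
    (σ : A → ℂ) (hσ : ∀ a, σ a ≠ 0) (R : ℕ) :
    ∑ a : Fin R → A, Real.log ((Nat.card (Co fun r : Fin R => z ^ (r : ℕ) * σ (a r)) : ℝ) /
      4 ^ R) ≤ -((Fintype.card A : ℝ) ^ R * (R * (min 1 (Real.log (MM z)) / 714))) := by
  classical
  obtain ⟨β, hβ0, hβ⟩ := conjugate hz σ hσ
  have hpos : ∀ v : Fin R → ℂ, 0 < (Nat.card (Co v) : ℝ) := by
    intro v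
    have : Nonempty (Co v) := ⟨⟨fun _ => (true, true), by simp [Co, dd]⟩⟩
    exact_mod_cast Nat.card_pos
  have hle : ∀ v v' : Fin R → ℂ, Co v ⊆ Co v' → (Nat.card (Co v) : ℝ) ≤ Nat.card (Co v') := by
    intro v v' h
    exact_mod_cast Nat.card_mono (Set.toFinite _) h
  have hc : (0 : ℝ) ≤ (Fintype.card A : ℝ) ^ R * R := by positivity
  by_cases h1 : ∃ w : ℂ, aeval w (minpoly ℤ z) = 0 ∧ 1 ≤ Real.log ‖w‖
  · obtain ⟨w, hw, hw1⟩ := h1
    have h2 := one_place hw1 (fun a => β a w) (fun a => hβ0 a w hw) R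
    have h3 : ∑ a : Fin R → A, Real.log ((Nat.card (Co fun r : Fin R =>
        z ^ (r : ℕ) * σ (a r)) : ℝ) / 4 ^ R) ≤ ∑ a : Fin R → A,
        Real.log ((Nat.card (Co fun r : Fin R => w ^ (r : ℕ) * β (a r) w) : ℝ) / 4 ^ R) := by
      refine Finset.sum_le_sum fun a _ => Real.log_le_log (div_pos (hpos _) (by positivity)) ?_
      exact div_le_div_of_nonneg_right (hle _ _ (hβ R a w hw)) (by positivity)
    refine h3.trans (h2.trans ?_)
    rw [neg_le_neg_iff, ← mul_assoc, ← mul_assoc]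
    apply mul_le_mul_of_nonneg_left _ hc
    have := min_le_left 1 (Real.log (MM z))
    linarith
  push Not at h1
  -- a set of conjugates
  have hMlog : Real.log (MM z) = ∑ w ∈ outer z, Real.log ‖w‖ := by
    rw [MM_eq z hz, Real.log_prod]
    intro w hw
    have := ((mem_outer z hz w).1 hw).2
    positivity
  have hw1 : ∀ w ∈ outer z, 0 ≤ Real.log ‖w‖ ∧ Real.log ‖w‖ ≤ 1 := by
    intro w hw
    obtain ⟨e1, e2⟩ := (mem_outer z hz w).1 hw
    exact ⟨Real.log_nonneg e2.le, (h1 w e1).le⟩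
  obtain ⟨J, hJ, hJ1, hJ2⟩ : ∃ J ⊆ outer z, min 1 (Real.log (MM z)) ≤ min 1 (∑ w ∈ J, Real.log ‖w‖) ∧
      ∑ w ∈ J, Real.log ‖w‖ ≤ 2 := by
    by_cases h2 : 1 ≤ ∑ w ∈ outer z, Real.log ‖w‖
    · obtain ⟨J, hJ, h3, h4⟩ := exists_sub (outer z) (fun w => Real.log ‖w‖) hw1 h2
      refine ⟨J, hJ, ?_, h4⟩
      rw [min_eq_left h3]
      exact min_le_left _ _
    · refine ⟨outer z, Finset.Subset.refl _, ?_, ?_⟩
      · rw [hMlog]
      · push Not at h2
        linarith
  by_cases hJ0 : J = ∅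
  · -- trivial case
    rw [hJ0, Finset.sum_empty, min_eq_right zero_le_one] at hJ1
    have h2 : Real.log (MM z) = 0 := by
      have h3 := Real.log_nonneg (MM_ge z hz)
      rcases min_le_iff.1 hJ1 with h | h
      · linarith
      · linarith
    rw [h2, min_eq_right zero_le_one, zero_div, mul_zero, mul_zero, neg_zero]
    refine Finset.sum_nonpos fun a _ => ?_
    apply Real.log_nonpos (by positivity)
    rw [div_le_one (by positivity)]
    have h4 : Nat.card (Co fun r : Fin R => z ^ (r : ℕ) * σ (a r)) ≤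
        Nat.card (Fin R → Bool × Bool) := Nat.card_le_card_of_injective _ Subtype.val_injective
    rw [Nat.card_eq_fintype_card (α := Fin R → Bool × Bool), Fintype.card_fun,
      Fintype.card_prod, Fintype.card_bool, Fintype.card_fin] at h4
    exact_mod_cast h4
  have hJne : J.Nonempty := Finset.nonempty_iff_ne_empty.2 hJ0
  let x : J → ℂ := fun w => (w : ℂ)
  have hxroot : ∀ w : J, aeval (w : ℂ) (minpoly ℤ z) = 0 := fun w =>
    ((mem_outer z hz w).1 (hJ w.2)).1
  have hx1 : ∀ w : J, 1 < ‖x w‖ := fun w => ((mem_outer z hz w).1 (hJ w.2)).2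
  have hxs : ∑ w : J, Real.log ‖x w‖ = ∑ w ∈ J, Real.log ‖w‖ :=
    Finset.sum_coe_sort J fun w => Real.log ‖w‖
  have hL0 : 0 < ∑ w : J, Real.log ‖x w‖ := by
    obtain ⟨w, hw⟩ := hJne
    refine Finset.sum_pos (fun w _ => Real.log_pos (hx1 w)) ⟨⟨w, hw⟩, Finset.mem_univ _⟩
  have h2 := avg x (fun a (w : J) => β a w) Subtype.val_injective hx1
    (fun a w => hβ0 a w (hxroot w)) hL0 R
  have h3 : ∑ a : Fin R → A, Real.log ((Nat.card (Co fun r : Fin R =>
      z ^ (r : ℕ) * σ (a r)) : ℝ) / 4 ^ R) ≤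
      ∑ a : Fin R → A, Real.log ((Nat.card (Col fun r : Fin R =>
        Y x (fun w : J => β (a r) w) ((r : ℕ) : ℤ)) : ℝ) / 4 ^ R) := by
    refine Finset.sum_le_sum fun a _ => Real.log_le_log (div_pos (hpos _) (by positivity)) ?_
    refine div_le_div_of_nonneg_right ?_ (by positivity)
    have h4 : (Co fun r : Fin R => z ^ (r : ℕ) * σ (a r)) ⊆ (Col fun r : Fin R =>
        Y x (fun w : J => β (a r) w) ((r : ℕ) : ℤ)) := by
      intro f hf
      show ∑ i, ((dd (f i) : ℝ) : ℂ) • Y x (fun w : J => β (a i) w) ((i : ℕ) : ℤ) = 0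
      funext w
      have h5 : ∑ i, ((dd (f i) : ℝ) : ℂ) * ((w : ℂ) ^ (i : ℕ) * β (a i) w) = 0 :=
        hβ R a w (hxroot w) hf
      rw [Finset.sum_apply, Pi.zero_apply, ← h5]
      refine Finset.sum_congr rfl fun i _ => ?_
      simp [Y, x]
    exact_mod_cast Nat.card_mono (Set.toFinite _) h4
  refine h3.trans (h2.trans ?_)
  rw [neg_le_neg_iff, ← mul_assoc, ← mul_assoc]
  apply mul_le_mul_of_nonneg_left _ hc
  have h5 := gain_ge _ hL0 (by rw [hxs]; exact hJ2)
  refine le_trans ?_ h5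
  rw [hxs]
  exact div_le_div_of_nonneg_right hJ1 (by norm_num)

end Pool.Agent.U161.AM
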