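import Mathlib
import Pool.Agent.U161.AM.Line
import Pool.Agent.U161.AR.Cnt
import Pool.Agent.N600.G3.Core

/-!
# The counting theorem in terms of Mahler measures
-/

set_option autoImplicit false

namespace Pool.Agent.U161.AM

open Finset
open Pool.Agent.N600.G3 (AA Crossed S_ENT1 S_ENT2 S_ENT3 S_PRD S_TRI)
open Pool.Agent.U161.AR (prd tri)
open Pool.Agent.W963.GE (MM dd)

universe u

/-- the numbers that are not roots of unity -/
def Free (z : ℂ) : Prop := ∀ n : ℕ, 0 < n → z ^ n ≠ 1

theorem flip_free {M : Type*} [Group M] (w : M →* ℂˣ) {K : ℕ}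
    (c : Fin K → M) (k : Fin K) (hk : Free (w (c k) : ℂ)) (ε : Fin K → Bool)
    (h : ¬ Free (w (AA c ε) : ℂ)) :
    Free (w (AA c (Function.update ε k (!ε k))) : ℂ) := by
  by_contra h'
  unfold Free at h h' hk
  push Not at h h'
  obtain ⟨n, hn, h1⟩ := h
  obtain ⟨n', hn', h2⟩ := h'
  have e1 := Pool.Agent.N499.G3.map_AA w c ε
  have e2 := Pool.Agent.N499.G3.map_AA w c (Function.update ε k (!ε k))
  rw [← Finset.mul_prod_erase _ _ (Finset.mem_univ k)] at e1 e2
  have he : ∏ j ∈ Finset.univ.erase k, w (if Function.update ε k (!ε k) j then c j else 1) =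
      ∏ j ∈ Finset.univ.erase k, w (if ε j then c j else 1) := by
    refine Finset.prod_congr rfl fun j hj => ?_
    rw [Function.update_of_ne (Finset.ne_of_mem_erase hj)]
  rw [he, Function.update_self] at e2
  set P := ∏ j ∈ Finset.univ.erase k, w (if ε j then c j else 1) with hP
  have h1' : (w (AA c ε)) ^ n = 1 := by
    apply Units.ext
    rw [Units.val_pow_eq_pow_val, h1, Units.val_one]
  have h2' : (w (AA c (Function.update ε k (!ε k)))) ^ n' = 1 := by
    apply Units.ext
    rw [Units.val_pow_eq_pow_val, h2, Units.val_one]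
  have h3 : (w (c k)) ^ (n * n') = 1 := by
    cases hε : ε k with
    | true =>
      rw [hε] at e1 e2 h2'
      simp only [if_true, Bool.not_true, Bool.false_eq_true, if_false, map_one, one_mul] at e1 e2 h2'
      rw [e1] at h1'
      rw [e2] at h2'
      have h4 : P ^ (n * n') = 1 := by rw [mul_comm, pow_mul, h2', one_pow]
      have h5 : (w (c k) * P) ^ (n * n') = 1 := by rw [pow_mul, h1', one_pow]
      rw [mul_pow, h4, mul_one] at h5
      exact h5
    | false =>
      rw [hε] at e1 e2 h2'
      simp only [if_true, Bool.not_false, Bool.false_eq_true, if_false, map_one, one_mul] at e1 e2 h2'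
      rw [e1] at h1'
      rw [e2] at h2'
      have h4 : P ^ (n * n') = 1 := by rw [pow_mul, h1', one_pow]
      have h5 : (w (c k) * P) ^ (n * n') = 1 := by rw [mul_comm n n', pow_mul, h2', one_pow]
      rw [mul_pow, h4, mul_one] at h5
      exact h5
  refine hk (n * n') (Nat.mul_pos hn hn') ?_
  have := congrArg (fun z : ℂˣ => (z : ℂ)) h3
  simpa using this

/-- half of the characters can be made free at the same time -/
theorem eps {M : Type*} [Group M] (K : ℕ) (w : Fin K → M →* ℂˣ) (c : Fin K → M)
    (hc : ∀ i, Free (w i (c i) : ℂ)) :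
    ∃ ε : Fin K → Bool,
      K ≤ 2 * (Nat.card {k : Fin K // Free (w k (AA c ε) : ℂ)}) := by
  classical
  by_contra hcon
  push Not at hcon
  simp only [Nat.card_eq_fintype_card, Fintype.card_subtype] at hcon
  have h1 : ∀ k : Fin K, 2 ^ K ≤ 2 * (Finset.univ.filter
      fun ε : Fin K → Bool => Free (w k (AA c ε) : ℂ)).card := by
    intro k
    have h2 := Finset.card_filter_add_card_filter_not (s := (Finset.univ : Finset (Fin K → Bool)))
      (fun ε : Fin K → Bool => Free (w k (AA c ε) : ℂ))
    have h3 : (Finset.univ.filter fun ε : Fin K → Bool => ¬ Free (w k (AA c ε) : ℂ)).card ≤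
        (Finset.univ.filter fun ε : Fin K → Bool => Free (w k (AA c ε) : ℂ)).card := by
      refine Finset.card_le_card_of_injOn (fun ε => Function.update ε k (!ε k)) ?_ ?_
      · intro ε hε
        have h4 : ¬ Free (w k (AA c ε) : ℂ) := by simpa using hε
        have h5 := flip_free (w k) c k (hc k) ε h4
        simpa using h5
      · intro a _ b _ hab
        funext j
        have h4 := congrFun hab j
        by_cases hj : j = k
        · subst hj
          simpa using h4
        · simpa [Function.update_of_ne hj] using h4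
    have h4 : (Finset.univ : Finset (Fin K → Bool)).card = 2 ^ K := by
      rw [Finset.card_univ]
      simp
    omega
  have h6 : ∑ ε : Fin K → Bool,
      (Finset.univ.filter fun k : Fin K => Free (w k (AA c ε) : ℂ)).card =
      ∑ k : Fin K, (Finset.univ.filter fun ε : Fin K → Bool =>
        Free (w k (AA c ε) : ℂ)).card := by
    simp only [Finset.card_filter]
    exact Finset.sum_comm
  have h7 : K * 2 ^ K ≤ 2 * ∑ k : Fin K,
      (Finset.univ.filter fun ε : Fin K → Bool => Free (w k (AA c ε) : ℂ)).card := by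
    rw [Finset.mul_sum]
    calc K * 2 ^ K = ∑ _k : Fin K, 2 ^ K := by simp
      _ ≤ _ := Finset.sum_le_sum fun k _ => h1 k
  have h8 : 2 * ∑ ε : Fin K → Bool, (Finset.univ.filter fun k : Fin K =>
        Free (w k (AA c ε) : ℂ)).card < K * 2 ^ K := by
    rw [Finset.mul_sum]
    calc ∑ ε : Fin K → Bool, 2 * (Finset.univ.filter fun k : Fin K =>
          Free (w k (AA c ε) : ℂ)).card
        < ∑ _ε : Fin K → Bool, K :=
          Finset.sum_lt_sum_of_nonempty Finset.univ_nonempty fun ε _ => hcon ε
      _ = K * 2 ^ K := by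
          rw [Finset.sum_const]
          simp [mul_comm]
  rw [h6] at h8
  exact absurd h7 (not_le.mpr h8)

/-- concavity of the logarithm -/
lemma jensen {B : Type*} [Fintype B] [Nonempty B] (t : B → ℝ) (ht : ∀ y, 0 < t y) :
    ∑ y, Real.log (t y) ≤ (Fintype.card B : ℝ) * Real.log ((∑ y, t y) / Fintype.card B) := by
  have hB : (0 : ℝ) < Fintype.card B := by exact_mod_cast Fintype.card_pos
  set c := (∑ y, t y) / Fintype.card B with hc
  have hc0 : 0 < c := div_pos (Finset.sum_pos (fun y _ => ht y) Finset.univ_nonempty) hB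
  have h1 : ∀ y, Real.log (t y) ≤ Real.log c + (t y / c - 1) := by
    intro y
    have h2 := Real.log_le_sub_one_of_pos (div_pos (ht y) hc0)
    rw [Real.log_div (ht y).ne' hc0.ne'] at h2
    linarith
  refine (Finset.sum_le_sum fun y _ => h1 y).trans (le_of_eq ?_)
  rw [Finset.sum_add_distrib, Finset.sum_sub_distrib, ← Finset.sum_div, Finset.sum_const,
    Finset.sum_const, Finset.card_univ, nsmul_eq_mul, nsmul_eq_mul, mul_one]
  have h3 : (∑ y, t y) / c = Fintype.card B := by
    rw [hc]
    have : (∑ y, t y) ≠ 0 := (Finset.sum_pos (fun y _ => ht y) Finset.univ_nonempty).ne'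
    field_simp
  rw [h3]
  ring

/-- **the counting theorem in terms of Mahler measures** -/
theorem cnt (h4 : S_PRD.{u}) (h5 : S_TRI.{u})
    (M : Type u) [Group M] (K : ℕ)
    (χ : Fin K → M →* ℂˣ) (b : Fin K → M → ℂ) (hb : ∀ k, Crossed (χ k) (b k))
    (c d : Fin K → M) (hbc : ∀ i j, b i (c j) = 0) (hbd : ∀ i j, i < j → b i (d j) = 0)
    (hdd : ∀ i, b i (d i) ≠ 0) {η : ℝ} (hη : 0 ≤ η) (hc : ∀ i, Free (χ i (c i) : ℂ))
    (hM : ∀ i (t : M), Free (χ i t : ℂ) →
      IsIntegral ℤ (χ i t : ℂ) ∧ η ≤ Real.log (MM (χ i t : ℂ))) :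
    ∃ ε : Fin K → Bool, ∀ R : ℕ,
      K * R * (min 1 η / 1428) ≤
        Real.log (Nat.card (Set.range fun δ : Fin R → Fin K → Bool =>
          (List.ofFn fun r => AA d (δ r) * AA c ε * (AA d (δ r))⁻¹).prod)) := by
  classical
  obtain ⟨ε, hε⟩ := eps K χ c hc
  refine ⟨ε, fun R => ?_⟩
  set U : M := AA c ε with hU
  have hbU : ∀ k, b k U = 0 := fun k => Pool.Agent.N558.G3.b_AA (hb k) c (hbc k) ε
  choose g σ hg hX using fun k => tri h5 (χ k) (b k) (hb k) K d k (hbd k)
  let u : Fin K → ℂ := fun k => (χ k U : ℂ)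
  let row : (Fin K → Fin R → Bool) → Fin R → Fin K → Bool := fun δ r j => δ j r
  let P : (Fin R → Fin K → Bool) → M := fun δ =>
    (List.ofFn fun r => AA d (δ r) * U * (AA d (δ r))⁻¹).prod
  let X : (Fin K → Fin R → Bool) → Fin K → ℂ := fun δ k => b k (P (row δ))
  have hform : ∀ δ k, X δ k = (1 - u k) * ∑ r : Fin R, u k ^ (r : ℕ) *
      (g k (row δ r) + (σ k (row δ r) : ℂ) * (if δ k r then b k (d k) else 0)) := by
    intro δ k
    show b k (List.ofFn fun r => AA d (row δ r) * U * (AA d (row δ r))⁻¹).prod = _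
    rw [prd h4 (χ k) (b k) (hb k) U (hbU k) R (fun r => AA d (row δ r))]
    congr 1
    refine Finset.sum_congr rfl fun r _ => ?_
    rw [hX]
  have hupd : ∀ δ k x, X (Function.update δ k x) k =
      (1 - u k) * ∑ r : Fin R, u k ^ (r : ℕ) * g k (row δ r) +
      ∑ r : Fin R, (if x r then (u k ^ (r : ℕ) * ((1 - u k) * b k (d k) *
        (σ k (row δ r) : ℂ))) else 0) := by
    intro δ k x
    rw [hform, Finset.mul_sum, Finset.mul_sum, ← Finset.sum_add_distrib]
    refine Finset.sum_congr rfl fun r _ => ?_
    have e := hg k (row (Function.update δ k x) r) (row δ r) (fun i hi => by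
      show Function.update δ k x i r = δ i r
      rw [Function.update_of_ne hi.ne])
    rw [e.1, e.2, Function.update_self]
    split_ifs
    · ring
    · ring
  have hdep : ∀ k δ δ', (∀ i ≤ k, δ i = δ' i) → X δ k = X δ' k := by
    intro k δ δ' h
    rw [hform, hform]
    congr 1
    refine Finset.sum_congr rfl fun r _ => ?_
    have e := hg k (row δ r) (row δ' r) (fun i hi => congrFun (h i hi.le) r)
    rw [e.1, e.2, congrFun (h k le_rfl) r]
  -- entropies
  have hE2 := Pool.Agent.N787.G3.t_ent2.{0} (Fin K → Fin R → Bool) (Fin K → ℂ) X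
  have hE3 := (Pool.Agent.N99.G3.t_ent3.{0} Pool.Agent.N711.G3.t_ent1) K (Fin R → Bool) ℂ X hdep
  have hΩ : (Fintype.card (Fin K → Fin R → Bool) : ℝ) = 2 ^ (K * R) := by
    rw [Fintype.card_fun, Fintype.card_fun, Fintype.card_bool, Fintype.card_fin, Fintype.card_fin]
    push_cast
    rw [← pow_mul, mul_comm]
  have hB : (Fintype.card (Fin R → Bool) : ℝ) = 2 ^ R := by
    rw [Fintype.card_fun, Fintype.card_bool, Fintype.card_fin]
    push_cast
    rfl
  set Ω : ℝ := 2 ^ (K * R) with hΩd
  have hΩ0 : 0 < Ω := by positivity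
  let fb : (Fin K → Fin R → Bool) → Fin K → ℝ := fun δ k =>
    (Nat.card {x : Fin R → Bool // X (Function.update δ k x) k = X δ k} : ℝ)
  have hfb0 : ∀ δ k, 0 < fb δ k := by
    intro δ k
    have : Nonempty {x : Fin R → Bool // X (Function.update δ k x) k = X δ k} :=
      ⟨⟨δ k, by rw [Function.update_eq_self]⟩⟩
    show 0 < (Nat.card {x : Fin R → Bool // X (Function.update δ k x) k = X δ k} : ℝ)
    exact_mod_cast Nat.card_pos
  -- all lines
  have hall : ∀ k, ∑ δ, Real.log (fb δ k) ≤ Ω * (R * Real.log 2) := by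
    intro k
    have h6 : ∀ δ, Real.log (fb δ k) ≤ R * Real.log 2 := by
      intro δ
      rw [← Real.log_pow]
      apply Real.log_le_log (hfb0 δ k)
      have h7 : Nat.card {x : Fin R → Bool // X (Function.update δ k x) k = X δ k} ≤
          Nat.card (Fin R → Bool) := Nat.card_le_card_of_injective _ Subtype.val_injective
      rw [Nat.card_eq_fintype_card (α := Fin R → Bool), Fintype.card_fun, Fintype.card_bool,
        Fintype.card_fin] at h7
      show ((Nat.card {x : Fin R → Bool // X (Function.update δ k x) k = X δ k} : ℕ) : ℝ) ≤ 2 ^ R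
      exact_mod_cast h7
    calc ∑ δ, Real.log (fb δ k) ≤ ∑ _δ : Fin K → Fin R → Bool, R * Real.log 2 :=
          Finset.sum_le_sum fun δ _ => h6 δ
      _ = _ := by rw [Finset.sum_const, Finset.card_univ, nsmul_eq_mul, hΩ]
  -- good lines
  have hgood : ∀ k, Free (u k) → ∑ δ, Real.log (fb δ k) ≤
      Ω * (R * Real.log 2) - Ω * (R * (min 1 η / 714)) := by
    intro k hk
    obtain ⟨hint, hMk⟩ := hM k U hk
    have hu1 : 1 - u k ≠ 0 := by
      intro h
      exact hk 1 one_pos (by rw [pow_one]; exact (sub_eq_zero.1 h).symm)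
    let σ' : (Fin K → Bool) → ℂ := fun a => (1 - u k) * b k (d k) * (σ k a : ℂ)
    have hσ' : ∀ a, σ' a ≠ 0 := fun a => mul_ne_zero (mul_ne_zero hu1 (hdd k)) (Units.ne_zero _)
    have h6 := line (A := Fin K → Bool) (z := u k) hint σ' hσ' R
    have h7 : ∑ a : Fin R → Fin K → Bool, Real.log ((Nat.card (Co fun r : Fin R =>
        u k ^ (r : ℕ) * σ' (a r)) : ℝ) / 4 ^ R) ≤ -(Ω * (R * (min 1 η / 714))) := by
      refine h6.trans ?_
      rw [neg_le_neg_iff]
      have e1 : (Fintype.card (Fin K → Bool) : ℝ) ^ R = Ω := by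
        rw [Fintype.card_fun, Fintype.card_bool, Fintype.card_fin]
        push_cast
        rw [← pow_mul]
      rw [e1]
      apply mul_le_mul_of_nonneg_left _ hΩ0.le
      apply mul_le_mul_of_nonneg_left _ (Nat.cast_nonneg R)
      apply div_le_div_of_nonneg_right _ (by norm_num)
      exact min_le_min_left 1 hMk
    -- the fibres
    have h8 := resample (fun δ : Fin K → Fin R → Bool => Real.log (fb δ k)) k
    rw [hB] at h8
    have h9 : ∀ δ : Fin K → Fin R → Bool, ∑ y, Real.log (fb (Function.update δ k y) k) ≤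
        2 ^ R * (Real.log ((Nat.card (Co fun r : Fin R =>
          u k ^ (r : ℕ) * σ' (row δ r)) : ℝ) / 4 ^ R) + R * Real.log 2) := by
      intro δ
      have e1 := jensen (fun y => fb (Function.update δ k y) k) (fun y => hfb0 _ _)
      rw [hB] at e1
      refine e1.trans ?_
      apply mul_le_mul_of_nonneg_left _ (by positivity)
      have e2 : ∑ y, fb (Function.update δ k y) k =
          (Nat.card (Co fun r : Fin R => u k ^ (r : ℕ) * σ' (row δ r)) : ℝ) := by
        have e3 : Nat.card (Co fun r : Fin R => u k ^ (r : ℕ) * σ' (row δ r)) =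
            ∑ y : Fin R → Bool, Nat.card {x : Fin R → Bool //
              X (Function.update (Function.update δ k y) k x) k =
                X (Function.update δ k y) k} := by
          rw [← Nat.card_sigma]
          have e4 : ∀ x y : Fin R → Bool, X (Function.update (Function.update δ k y) k x) k =
              X (Function.update δ k y) k ↔
              (fun i => (x i, y i)) ∈ Co fun r : Fin R => u k ^ (r : ℕ) * σ' (row δ r) := by
            intro x y
            rw [Function.update_idem, hupd, hupd, add_right_inj, ← sub_eq_zero,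
              ← Finset.sum_sub_distrib]
            have e5 : ∑ r : Fin R, ((if x r then (u k ^ (r : ℕ) * ((1 - u k) * b k (d k) *
                (σ k (row δ r) : ℂ))) else 0) - (if y r then (u k ^ (r : ℕ) *
                ((1 - u k) * b k (d k) * (σ k (row δ r) : ℂ))) else 0)) =
                ∑ r : Fin R, ((dd (x r, y r) : ℝ) : ℂ) * (u k ^ (r : ℕ) * σ' (row δ r)) := by
              refine Finset.sum_congr rfl fun r _ => ?_
              show _ = ((dd (x r, y r) : ℝ) : ℂ) * (u k ^ (r : ℕ) * ((1 - u k) * b k (d k) *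
                (σ k (row δ r) : ℂ)))
              generalize x r = b1
              generalize y r = b2
              cases b1 <;> cases b2 <;> simp [dd]
            rw [e5]
            rfl
          refine Nat.card_congr ?_
          exact
            { toFun := fun f => ⟨fun i => (f.1 i).2, ⟨fun i => (f.1 i).1,
                (e4 (fun i => (f.1 i).1) (fun i => (f.1 i).2)).2 f.2⟩⟩
              invFun := fun p => ⟨fun i => (p.2.1 i, p.1 i), (e4 p.2.1 p.1).1 p.2.2⟩
              left_inv := fun f => rfl
              right_inv := fun p => rfl }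
        rw [e3]
        push_cast
        rfl
      rw [e2]
      have hpos : 0 < (Nat.card (Co fun r : Fin R => u k ^ (r : ℕ) * σ' (row δ r)) : ℝ) := by
        have : Nonempty (Co fun r : Fin R => u k ^ (r : ℕ) * σ' (row δ r)) :=
          ⟨⟨fun _ => (true, true), by simp [Co, dd]⟩⟩
        exact_mod_cast Nat.card_pos
      have e3 : (Nat.card (Co fun r : Fin R => u k ^ (r : ℕ) * σ' (row δ r)) : ℝ) / 2 ^ R =
          (Nat.card (Co fun r : Fin R => u k ^ (r : ℕ) * σ' (row δ r)) : ℝ) / 4 ^ R * 2 ^ R := by
        have : (4 : ℝ) ^ R = 2 ^ R * 2 ^ R := by rw [← mul_pow]; norm_num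
        rw [this]
        field_simp
      rw [e3, Real.log_mul (by positivity) (by positivity), Real.log_pow]
    have h10 : (2 : ℝ) ^ R * ∑ δ, Real.log (fb δ k) ≤ 2 ^ R *
        (Ω * (R * Real.log 2) - Ω * (R * (min 1 η / 714))) := by
      rw [h8]
      refine (Finset.sum_le_sum fun δ _ => h9 δ).trans ?_
      rw [← Finset.mul_sum]
      apply mul_le_mul_of_nonneg_left _ (by positivity)
      rw [Finset.sum_add_distrib, Finset.sum_const, Finset.card_univ, nsmul_eq_mul, hΩ]
      have e1 : ∑ δ : Fin K → Fin R → Bool, Real.log ((Nat.card (Co fun r : Fin R =>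
          u k ^ (r : ℕ) * σ' (row δ r)) : ℝ) / 4 ^ R) =
          ∑ a : Fin R → Fin K → Bool, Real.log ((Nat.card (Co fun r : Fin R =>
          u k ^ (r : ℕ) * σ' (a r)) : ℝ) / 4 ^ R) := by
        refine Fintype.sum_equiv (Equiv.piComm fun (_ : Fin K) (_ : Fin R) => Bool) _ _ fun δ => ?_
        rfl
      rw [e1]
      linarith
    exact le_of_mul_le_mul_left h10 (by positivity)
  -- all together
  have hsum : ∑ k, ∑ δ, Real.log (fb δ k) ≤ Ω * (K * R * Real.log 2) -
      Ω * (K * R * (min 1 η / 1428)) := by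
    have h6 : ∀ k, ∑ δ, Real.log (fb δ k) ≤ Ω * (R * Real.log 2) -
        (if Free (u k) then Ω * (R * (min 1 η / 714)) else 0) := by
      intro k
      split_ifs with hk
      · exact hgood k hk
      · rw [sub_zero]; exact hall k
    refine (Finset.sum_le_sum fun k _ => h6 k).trans ?_
    rw [Finset.sum_sub_distrib, Finset.sum_const, Finset.card_univ, Fintype.card_fin,
      nsmul_eq_mul, ← Finset.sum_filter, Finset.sum_const, nsmul_eq_mul]
    have h7 : (K : ℝ) ≤ 2 * ((Finset.univ.filter fun k => Free (u k)).card : ℝ) := by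
      have h8 : K ≤ 2 * (Nat.card {k : Fin K // Free (χ k (AA c ε) : ℂ)}) := hε
      rw [Nat.card_eq_fintype_card, Fintype.card_subtype] at h8
      have h9 : (Finset.univ.filter fun k : Fin K => Free (χ k (AA c ε) : ℂ)) =
        Finset.univ.filter fun k => Free (u k) := rfl
      rw [h9] at h8
      exact_mod_cast h8
    have h8 : 0 ≤ Ω * (R * (min 1 η / 714)) := by
      have : 0 ≤ min 1 η := le_min zero_le_one hη
      positivity
    have h9 : Ω * (K * R * (min 1 η / 1428)) = K / 2 * (Ω * (R * (min 1 η / 714))) := by ring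
    rw [h9]
    nlinarith
  set N : ℕ := Nat.card (Set.range X) with hN
  have hNpos : 0 < N := by
    rw [hN, Nat.card_coe_set_eq]
    exact (Set.ncard_pos (Set.finite_range X)).2 (Set.range_nonempty X)
  have hlog : K * R * (min 1 η / 1428) ≤ Real.log N := by
    rw [hΩ] at hE2
    have h6 : ∑ δ : Fin K → Fin R → Bool, ∑ k, Real.log (Nat.card {x : Fin R → Bool //
        X (Function.update δ k x) k = X δ k}) = ∑ k, ∑ δ, Real.log (fb δ k) := Finset.sum_comm
    rw [h6] at hE3
    have h7 := hE2.trans (hE3.trans hsum)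
    have h8 : Real.log Ω = K * R * Real.log 2 := by
      rw [hΩd, Real.log_pow]; push_cast; ring
    rw [h8] at h7
    have h9 : Ω * (K * R * (min 1 η / 1428)) ≤ Ω * Real.log N := by
      have : Ω * (K * R * Real.log 2 - Real.log N) = Ω * (K * R * Real.log 2) -
        Ω * Real.log N := by ring
      rw [this] at h7
      linarith
    exact le_of_mul_le_mul_left h9 hΩ0
  refine hlog.trans ?_
  have hNR : (0 : ℝ) < N := by exact_mod_cast hNpos
  apply Real.log_le_log hNR
  have hsub : Set.range X ⊆ (fun y : M => fun k => b k y) '' Set.range P := by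
    rintro _ ⟨δ, rfl⟩
    exact ⟨P (row δ), ⟨row δ, rfl⟩, rfl⟩
  have hPfin : (Set.range P).Finite := Set.finite_range P
  have hfin : N ≤ Nat.card (Set.range P) := by
    rw [hN, Nat.card_coe_set_eq, Nat.card_coe_set_eq]
    exact (Set.ncard_le_ncard hsub (hPfin.image _)).trans (Set.ncard_image_le hPfin)
  exact_mod_cast hfin

end Pool.Agent.U161.AM
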