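import Pool.Agent.U161.AR.Wt
import Pool.Agent.U161.AM.Tha

/-!
# Growth when the eigenvalues of the derived subgroup have large Mahler measure
-/

set_option autoImplicit false

namespace Pool.Agent.U161.AM

open Pool.Agent.N600.G3 Subgroup Polynomial
open scoped TensorProduct commutatorElement Pointwise
open Pool.Agent.TH53.UG (act)
open Pool.Agent.U161.AR
open Pool.Agent.W963.GE (MM)

universe u

theorem core {G : Type u} [Group G] (T : Set G) (hfin : T.Finite) (h1T : 1 ∈ T)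
    (hinv : T⁻¹ = T) (hgen : closure T = ⊤) (N : Subgroup G) [N.Normal]
    (hNe : N = ⁅commutator G, commutator G⁆) [Module.Finite ℤ (AbN N)] {η : ℝ} (hη : 0 ≤ η)
    (hbig : ∀ t ∈ commutator G, ∀ z : ℂ, EF N t z → Free z → η ≤ Real.log (MM z))
    (hex : ∃ t ∈ commutator G, ∃ z : ℂ, EF N t z ∧ Free z) :
    min 1 η / 31416 ≤ H746UG.rho T := by
  have hNc : ∀ s ∈ commutator G, ∀ t ∈ commutator G, s * t * s⁻¹ * t⁻¹ ∈ N := by
    intro s hs t ht
    rw [hNe]
    exact commutator_mem_commutator hs ht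
  have hNle : N ≤ commutator G := by
    rw [hNe]
    exact commutator_le_left _ _
  obtain ⟨t, ht, z, hz, hzr⟩ := hex
  obtain ⟨χ, φ, hφ0, hφ, hχ⟩ := weight N hNc ⟨t, ht⟩ hz
  -- a short commutator with an eigenvalue that is no root of unity
  have hex : ∃ (g : G) (c : commutator G), (c : G) ∈ CT T ∧
      ∀ n > 0, (χ (cj g c) : ℂ) ^ n ≠ 1 := by
    by_contra hcon
    push Not at hcon
    let Q : Subgroup G :=
      { carrier := {x | ∃ hx : x ∈ commutator G, ∀ g : G, ∃ n > 0,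
          (χ (cj g ⟨x, hx⟩) : ℂ) ^ n = 1}
        mul_mem' := by
          rintro a b ⟨ha, ha'⟩ ⟨hb, hb'⟩
          refine ⟨mul_mem ha hb, fun g => ?_⟩
          obtain ⟨n, hn, h1⟩ := ha' g
          obtain ⟨m, hm, h2⟩ := hb' g
          have : (⟨a * b, mul_mem ha hb⟩ : commutator G) = ⟨a, ha⟩ * ⟨b, hb⟩ := rfl
          refine ⟨n * m, Nat.mul_pos hn hm, ?_⟩
          rw [this, map_mul, map_mul, Units.val_mul, mul_pow, pow_mul, h1, one_pow, one_mul,
            mul_comm n m, pow_mul, h2, one_pow]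
        one_mem' := by
          refine ⟨one_mem _, fun g => ⟨1, one_pos, ?_⟩⟩
          have : (⟨1, one_mem _⟩ : commutator G) = 1 := rfl
          rw [this, map_one, map_one, Units.val_one, one_pow]
        inv_mem' := by
          rintro a ⟨ha, ha'⟩
          refine ⟨inv_mem ha, fun g => ?_⟩
          obtain ⟨n, hn, h1⟩ := ha' g
          have : (⟨a⁻¹, inv_mem ha⟩ : commutator G) = (⟨a, ha⟩ : commutator G)⁻¹ := rfl
          refine ⟨n, hn, ?_⟩
          rw [this, map_inv, map_inv, Units.val_inv_eq_inv_val, inv_pow, h1, inv_one] }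
    have hQn : Q.Normal := by
      refine ⟨?_⟩
      rintro a ⟨ha, ha'⟩ h
      refine ⟨(commutator_normal ⊤ ⊤).conj_mem a ha h, fun g => ?_⟩
      have e : (⟨h * a * h⁻¹, (commutator_normal ⊤ ⊤).conj_mem a ha h⟩ : commutator G) =
          cj h ⟨a, ha⟩ := rfl
      rw [e, cj_cj]
      exact ha' (g * h)
    have hle : commutator G ≤ Q := by
      refine (comm_le hgen).trans (normalClosure_le_normal ?_)
      intro x hx
      exact ⟨CT_sub T hx, fun g => hcon g ⟨x, CT_sub T hx⟩ hx⟩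
    obtain ⟨hm, hm'⟩ := hle ht
    obtain ⟨n, hn, h1⟩ := hm' 1
    rw [cj_one, hχ] at h1
    exact hzr n hn h1
  obtain ⟨g, c, hc, hvc⟩ := hex
  -- the eigenvalue of the conjugate of `c`
  have hE : EF N (cj g c : commutator G) (χ (cj g c) : ℂ) := ⟨φ, hφ0, fun a => hφ _ a⟩
  set w : ℂ := (χ (cj g c) : ℂ) with hw
  have hE3 : EF N (c : G) w := ef_cj N g hE
  obtain ⟨χ', φ', hφ0', hφ', hχ'⟩ := weight N hNc c hE3
  -- the crossed homomorphism
  let b : commutator G → ℂ := fun m =>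
    φ' (cls N ⟨(c : G) * m * (c : G)⁻¹ * (m : G)⁻¹, hNc c c.2 m m.2⟩)
  have hb : Crossed χ' b := by
    intro m m'
    have e : (⟨(c : G) * ((m * m' : commutator G) : G) * (c : G)⁻¹ *
          (((m * m' : commutator G)) : G)⁻¹, hNc c c.2 _ (m * m').2⟩ : N) =
        ⟨(c : G) * m * (c : G)⁻¹ * (m : G)⁻¹, hNc c c.2 m m.2⟩ *
        MulAut.conjNormal (m : G) ⟨(c : G) * m' * (c : G)⁻¹ * (m' : G)⁻¹, hNc c c.2 m' m'.2⟩ := by
      apply Subtype.ext
      show (c : G) * ((m : G) * m') * (c : G)⁻¹ * ((m : G) * m')⁻¹ =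
        ((c : G) * m * (c : G)⁻¹ * (m : G)⁻¹) *
          ((m : G) * ((c : G) * m' * (c : G)⁻¹ * (m' : G)⁻¹) * (m : G)⁻¹)
      group
    show φ' (cls N _) = _
    rw [e, cls_mul, map_add, ← act_cls, hφ']
  have hw1 : w ≠ 1 := by
    intro h
    exact hvc 1 one_pos (by rw [h, one_pow])
  have hbc : b c = 0 := by
    have e : (⟨(c : G) * c * (c : G)⁻¹ * (c : G)⁻¹, hNc c c.2 c c.2⟩ : N) = 1 := by
      apply Subtype.ext
      show (c : G) * c * (c : G)⁻¹ * (c : G)⁻¹ = 1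
      group
    show φ' (cls N _) = 0
    rw [e, cls_one, map_zero]
  have hne : ∃ m, b m ≠ 0 := by
    obtain ⟨a, ha⟩ : ∃ a, φ' a ≠ 0 := by
      by_contra hcon
      push Not at hcon
      exact hφ0' (LinearMap.ext hcon)
    obtain ⟨x, rfl⟩ := cls_surj N a
    refine ⟨⟨x, hNle x.2⟩, ?_⟩
    have e : (⟨(c : G) * x * (c : G)⁻¹ * (x : G)⁻¹, hNc c c.2 x (hNle x.2)⟩ : N) =
        MulAut.conjNormal (c : G) x * x⁻¹ := by
      apply Subtype.ext
      rw [Subgroup.coe_mul, MulAut.conjNormal_apply]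
      rfl
    show φ' (cls N _) ≠ 0
    rw [e, cls_mul, cls_inv, map_add, map_neg, ← act_cls, hφ', hχ']
    have h2 : w * φ' (cls N x) + -φ' (cls N x) = (w - 1) * φ' (cls N x) := by ring
    rw [h2]
    exact mul_ne_zero (sub_ne_zero.2 hw1) ha
  have hvc' : Free (χ' c : ℂ) := by
    rw [hχ']
    exact hvc
  have hM : ∀ t : commutator G, Free (χ' t : ℂ) →
      IsIntegral ℤ (χ' t : ℂ) ∧ η ≤ Real.log (MM (χ' t : ℂ)) := by
    intro t ht
    have hEt : EF N (t : G) (χ' t : ℂ) := ⟨φ', hφ0', fun a => hφ' t a⟩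
    exact ⟨integral_of_ef N hEt, hbig t t.2 _ hEt ht⟩
  have h := rho_of_tha T hfin h1T (tha G T hfin h1T hinv hgen χ' b hb c hc hbc hη hvc' hM hne)
  refine le_trans (le_of_eq ?_) h
  ring

end Pool.Agent.U161.AM
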